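import Mathlib

section

set_option autoImplicit false
open Polynomial Finset

namespace Pool.Agent.MP_dcfa1b_co

variable {F : Type*} [Field F]

lemma prod_top {ι : Type*} (s : Finset ι) (f : ι → F[X]) (a : ι → ℕ)
    (h : ∀ i ∈ s, (f i).natDegree ≤ a i) :
    (∏ i ∈ s, f i).natDegree ≤ ∑ i ∈ s, a i ∧
    (∏ i ∈ s, f i).coeff (∑ i ∈ s, a i) = ∏ i ∈ s, (f i).coeff (a i) := by
  classical
  induction s using Finset.induction_on with
  | empty => simp
  | insert j s hj ih =>
    have h1 := ih (fun i hi => h i (mem_insert_of_mem hi))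
    have h2 := h j (mem_insert_self _ _)
    rw [prod_insert hj, sum_insert hj, prod_insert hj]
    refine ⟨natDegree_mul_le.trans (Nat.add_le_add h2 h1.1), ?_⟩
    rw [coeff_mul_add_eq_of_natDegree_le h2 h1.1, h1.2]

lemma det_top {ι : Type*} [Fintype ι] [DecidableEq ι] (M : Matrix ι ι F[X]) (a b : ι → ℕ)
    (h : ∀ i j, (M i j).natDegree ≤ a i + b j) :
    M.det.natDegree ≤ ∑ i, a i + ∑ j, b j ∧
    M.det.coeff (∑ i, a i + ∑ j, b j) = (Matrix.of fun i j => (M i j).coeff (a i + b j)).det := by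
  have key : ∀ σ : Equiv.Perm ι, (∏ i, M (σ i) i).natDegree ≤ ∑ i, a i + ∑ j, b j ∧
      (∏ i, M (σ i) i).coeff (∑ i, a i + ∑ j, b j) = ∏ i, (M (σ i) i).coeff (a (σ i) + b i) := by
    intro σ
    have := prod_top univ (fun i => M (σ i) i) (fun i => a (σ i) + b i) (fun i _ => h _ _)
    rw [sum_add_distrib, Equiv.sum_comp σ a] at this
    exact this
  rw [Matrix.det_apply, Matrix.det_apply]
  constructor
  · refine natDegree_sum_le_of_forall_le _ _ (fun σ _ => ?_)
    rw [Units.smul_def]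
    exact (natDegree_smul_le _ _).trans (key σ).1
  · rw [finset_sum_coeff]
    refine sum_congr rfl (fun σ _ => ?_)
    rw [Units.smul_def, Units.smul_def, coeff_smul, (key σ).2]
    rfl

/-- the operator `P ↦ φ P'` -/
noncomputable def th (φ P : F[X]) : F[X] := φ * derivative P

lemma th_top (φ P : F[X]) (e N : ℕ) (hφ : φ.natDegree ≤ e + 1) (hP : P.natDegree ≤ N) :
    (th φ P).natDegree ≤ N + e ∧
    (th φ P).coeff (N + e) = φ.coeff (e + 1) * (N : F) * P.coeff N := by
  unfold th
  rcases N with _ | N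
  · have : derivative P = 0 := by
      rw [eq_C_of_natDegree_le_zero hP]; simp
    simp [this]
  · have h1 : (derivative P).natDegree ≤ N := by
      have := natDegree_derivative_le P
      omega
    have e1 : N + 1 + e = (e + 1) + N := by ring
    rw [e1]
    refine ⟨natDegree_mul_le.trans (Nat.add_le_add hφ h1), ?_⟩
    rw [coeff_mul_add_eq_of_natDegree_le hφ h1, coeff_derivative]
    push_cast
    ring

noncomputable def pl (F : Type*) [Field F] (e l : ℕ) : F[X] := ∏ t ∈ range l, (X + C ((t * e : ℕ) : F))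

lemma pl_monic (e l : ℕ) : (pl F e l).Monic :=
  monic_prod_of_monic _ _ (fun _ _ => monic_X_add_C _)

lemma pl_natDegree (e l : ℕ) : (pl F e l).natDegree = l := by
  unfold pl
  rw [natDegree_prod_of_monic _ _ (fun _ _ => monic_X_add_C _)]
  simp only [natDegree_X_add_C]
  simp

lemma thn_top (φ P : F[X]) (e N : ℕ) (hφ : φ.natDegree ≤ e + 1) (hP : P.natDegree ≤ N) (l : ℕ) :
    ((th φ)^[l] P).natDegree ≤ N + l * e ∧
    ((th φ)^[l] P).coeff (N + l * e) =
      φ.coeff (e + 1) ^ l * (pl F e l).eval (N : F) * P.coeff N := by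
  induction l with
  | zero => simp [pl, hP]
  | succ l ih =>
    rw [Function.iterate_succ_apply']
    have := th_top φ _ e _ hφ ih.1
    have e1 : N + (l + 1) * e = N + l * e + e := by ring
    rw [e1]
    refine ⟨this.1, ?_⟩
    rw [this.2, ih.2]
    unfold pl
    rw [prod_range_succ, eval_mul]
    simp only [eval_add, eval_X, eval_C]
    push_cast
    ring

noncomputable def Bf (φ : F[X]) (n : ℕ) (A : F[X]) : ℕ → F[X]
  | 0 => A
  | l + 1 => th φ (Bf φ n A l) + C (n : F) * derivative φ * Bf φ n A l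

lemma thn_eq (φ : F[X]) (n : ℕ) (A : F[X]) (l : ℕ) :
    (th φ)^[l] (A * φ ^ n) = Bf φ n A l * φ ^ n := by
  induction l with
  | zero => simp [Bf]
  | succ l ih =>
    rw [Function.iterate_succ_apply', ih]
    simp only [Bf, th, derivative_mul, derivative_pow]
    rcases n with _ | n
    · simp
    · simp only [Nat.add_sub_cancel, pow_succ]
      ring

lemma Bf_deg (φ : F[X]) (n : ℕ) (A : F[X]) (e D : ℕ) (hφ : φ.natDegree ≤ e + 1)
    (hA : A.natDegree ≤ D) (l : ℕ) : (Bf φ n A l).natDegree ≤ D + l * e := by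
  induction l with
  | zero => simpa [Bf] using hA
  | succ l ih =>
    have e1 : D + (l + 1) * e = D + l * e + e := by ring
    rw [e1]
    simp only [Bf]
    refine (natDegree_add_le _ _).trans (max_le (th_top φ _ e _ hφ ih).1 ?_)
    refine natDegree_mul_le.trans ?_
    have h1 : (C (n : F) * derivative φ).natDegree ≤ e := by
      refine (natDegree_C_mul_le _ _).trans ?_
      have := natDegree_derivative_le φ
      omega
    omega

lemma th_dvd (φ u P : F[X]) (V : ℕ) (hu : u ∣ φ) (hP : u ^ V ∣ P) : u ^ V ∣ th φ P := by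
  obtain ⟨R, rfl⟩ := hP
  obtain ⟨ψ, rfl⟩ := hu
  unfold th
  rcases V with _ | V
  · simp
  · simp only [derivative_mul, derivative_pow, Nat.add_sub_cancel]
    exact ⟨ψ * (C ((V + 1 : ℕ) : F) * derivative u * R + u * derivative R), by ring⟩

lemma thn_dvd (φ u P : F[X]) (V : ℕ) (hu : u ∣ φ) (hP : u ^ V ∣ P) (l : ℕ) :
    u ^ V ∣ (th φ)^[l] P := by
  induction l with
  | zero => simpa using hP
  | succ l ih => rw [Function.iterate_succ_apply']; exact th_dvd φ u _ V hu ih

lemma thn_sum {ι : Type*} (φ : F[X]) (s : Finset ι) (f : ι → F[X]) (l : ℕ) :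
    (th φ)^[l] (∑ i ∈ s, f i) = ∑ i ∈ s, (th φ)^[l] (f i) := by
  induction l with
  | zero => simp
  | succ l ih =>
    simp only [Function.iterate_succ_apply', ih]
    unfold th
    rw [derivative_sum, mul_sum]

/-- A sum of `r` terms `A_i φ^{n_i}` of pairwise different degrees, one of them with `n_i = 0`,
cannot vanish to a high order at a root of `φ`. -/
lemma wronsk {r : ℕ} (φ : F[X]) (e D V : ℕ) (c : F) (hφ : φ.natDegree = e + 1)
    (hu : X - C c ∣ φ) (A : Fin r → F[X]) (n : Fin r → ℕ) (hA : ∀ i, A i ≠ 0)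
    (hD : ∀ i, (A i).natDegree ≤ D)
    (hinj : Function.Injective (fun i => (((A i * φ ^ n i).natDegree : ℕ) : F)))
    (i0 : Fin r) (h0 : n i0 = 0) (hV : (X - C c) ^ V ∣ ∑ i, A i * φ ^ n i) :
    V ≤ r * D + (∑ l : Fin r, (l : ℕ)) * e := by
  have hφ0 : φ ≠ 0 := by rintro rfl; simp at hφ
  set N : Fin r → ℕ := fun i => (A i * φ ^ n i).natDegree with hN
  let M : Matrix (Fin r) (Fin r) F[X] := Matrix.of fun i l => (th φ)^[l] (A i * φ ^ n i)
  let B : Matrix (Fin r) (Fin r) F[X] := Matrix.of fun i l => Bf φ (n i) (A i) l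
  have hM : M.det ≠ 0 := by
    have h1 := (det_top M N (fun l => (l : ℕ) * e)
      (fun i l => (thn_top φ _ e (N i) hφ.le le_rfl l).1)).2
    intro h
    rw [h, coeff_zero] at h1
    have h2 : (Matrix.of fun i l => (M i l).coeff (N i + (l : ℕ) * e)) =
        Matrix.of fun (i l : Fin r) => (A i * φ ^ n i).leadingCoeff *
          ((Matrix.of fun (i l : Fin r) => φ.leadingCoeff ^ (l : ℕ) *
            (Matrix.of fun (i l : Fin r) => (pl F e l).eval (N i : F)) i l) i l) := by
      ext i l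
      simp only [M, Matrix.of_apply]
      rw [(thn_top φ _ e (N i) hφ.le le_rfl l).2, ← hφ]
      simp only [hN, leadingCoeff]
      ring
    rw [h2, Matrix.det_mul_column, Matrix.det_mul_row,
      ← Matrix.det_eval_matrixOfPolynomials_eq_det_vandermonde (fun i => (N i : F))
        (fun l : Fin r => pl F e l) (fun l => pl_natDegree e l) (fun l => pl_monic e l)] at h1
    have h3 : (Matrix.vandermonde fun i => (N i : F)).det ≠ 0 :=
      Matrix.det_vandermonde_ne_zero_iff.2 hinj
    have h4 : ∏ i, (A i * φ ^ n i).leadingCoeff ≠ 0 :=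
      prod_ne_zero_iff.2 (fun i _ => leadingCoeff_ne_zero.2 (mul_ne_zero (hA i) (pow_ne_zero _ hφ0)))
    have h5 : ∏ l : Fin r, φ.leadingCoeff ^ (l : ℕ) ≠ 0 :=
      prod_ne_zero_iff.2 (fun i _ => pow_ne_zero _ (leadingCoeff_ne_zero.2 hφ0))
    exact mul_ne_zero h4 (mul_ne_zero h5 h3) h1.symm
  have hMB : M = Matrix.of fun i l => φ ^ n i * B i l := by
    ext1 i l
    simp only [M, B, Matrix.of_apply, thn_eq]
    ring
  have hB : B.det ≠ 0 := by
    intro h
    apply hM
    rw [hMB, Matrix.det_mul_column, h, mul_zero]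
  have hBd : B.det.natDegree ≤ r * D + (∑ l : Fin r, (l : ℕ)) * e := by
    have := (det_top B (fun _ => D) (fun l => (l : ℕ) * e)
      (fun i l => Bf_deg φ (n i) (A i) e D hφ.le (hD i) l)).1
    simpa [sum_mul] using this
  have hrow : ∀ l : Fin r, (X - C c) ^ V ∣ ∑ i, φ ^ n i * B i l := by
    intro l
    have := thn_dvd φ _ _ V hu hV l
    rw [thn_sum] at this
    convert this using 2 with i
    simp only [B, Matrix.of_apply, thn_eq]
    ring
  have hdvd : (X - C c) ^ V ∣ B.det := by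
    have h1 : ∑ l, (∑ i, φ ^ n i * B i l) * B.adjugate l i0 = B.det := by
      simp only [sum_mul]
      rw [sum_comm]
      have : ∀ i, ∑ l, φ ^ n i * B i l * B.adjugate l i0 = φ ^ n i * (B * B.adjugate) i i0 := by
        intro i
        rw [Matrix.mul_apply, mul_sum]
        exact sum_congr rfl (fun l _ => by ring)
      simp only [this, Matrix.mul_adjugate, Matrix.smul_apply, Matrix.one_apply, smul_eq_mul]
      rw [sum_eq_single i0]
      · simp [h0]
      · intro i _ hi; simp [hi]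
      · simp
    rw [← h1]
    exact dvd_sum (fun l _ => (hrow l).mul_right _)
  have := natDegree_le_of_dvd hdvd hB
  rw [natDegree_pow, natDegree_X_sub_C, mul_one] at this
  omega

end Pool.Agent.MP_dcfa1b_co

end

section

set_option autoImplicit false
open Polynomial Finset

namespace Pool.Agent.MP_dcfa1b_co

lemma indep_closed {K : Type*} [Field K] [IsAlgClosed K] (φ : K[X]) (d s : ℕ)
    (hd : φ.natDegree = d) (hs : 1 ≤ s) (hder : derivative φ ≠ 0)
    (v : Fin d → K[X]) (hv : v ≠ 0) (h : ∑ l, (v l).comp φ * X ^ (s * (l : ℕ)) = 0) :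
    ∃ o, 1 < o ∧ ∀ i, φ.coeff i ≠ 0 → o ∣ i := by
  classical
  by_contra hno
  obtain ⟨l0, hl0⟩ : ∃ l0, v l0 ≠ 0 := by
    by_contra hc
    push Not at hc
    exact hv (funext hc)
  have hd1 : 1 ≤ d := l0.pos
  let Z : Finset K := ((nthRoots s (1 : K)).toFinset).erase 1
  have hZ : ∀ ζ ∈ Z, φ.comp (C ζ * X) - φ ≠ 0 := by
    intro ζ hζ h0
    obtain ⟨h1, h2⟩ := mem_erase.1 hζ
    rw [Multiset.mem_toFinset, mem_nthRoots hs] at h2
    apply hno
    have hfin : IsOfFinOrder ζ := isOfFinOrder_iff_pow_eq_one.2 ⟨s, hs, h2⟩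
    refine ⟨orderOf ζ, ?_, fun i hi => ?_⟩
    · have a1 := hfin.orderOf_pos
      have a2 : orderOf ζ ≠ 1 := fun hh => h1 (orderOf_eq_one_iff.1 hh)
      omega
    · have a3 := congrArg (fun P => coeff P i) h0
      simp only [coeff_sub, comp_C_mul_X_coeff, coeff_zero] at a3
      apply orderOf_dvd_of_pow_eq_one
      have : φ.coeff i * (ζ ^ i - 1) = 0 := by linear_combination a3
      exact sub_eq_zero.1 ((mul_eq_zero.1 this).resolve_left hi)
  let W : K[X] := derivative φ * ∏ ζ ∈ Z, (φ.comp (C ζ * X) - φ)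
  have hW : W ≠ 0 := mul_ne_zero hder (prod_ne_zero_iff.2 hZ)
  obtain ⟨t, ht⟩ := Infinite.exists_notMem_finset
    (W.roots.toFinset.image (fun z => φ.eval z) ∪ (v l0).roots.toFinset)
  rw [mem_union, not_or] at ht
  have ht1 : ∀ z, φ.eval z = t → W.eval z ≠ 0 := by
    intro z hz h0
    exact ht.1 (mem_image.2 ⟨z, Multiset.mem_toFinset.2 ((mem_roots hW).2 h0), hz⟩)
  have ht2 : (v l0).eval t ≠ 0 := fun h0 =>
    ht.2 (Multiset.mem_toFinset.2 ((mem_roots hl0).2 h0))
  let Ψ : K[X] := φ - C t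
  have hΨd : Ψ.natDegree = d := by simp only [Ψ]; rw [natDegree_sub_C, hd]
  have hΨ0 : Ψ ≠ 0 := by intro h0; rw [h0] at hΨd; simp at hΨd; omega
  have hroot : ∀ z, Ψ.IsRoot z → φ.eval z = t := by
    intro z hz
    simp only [Ψ, IsRoot, eval_sub, eval_C] at hz
    exact sub_eq_zero.1 hz
  have hnd : Ψ.roots.Nodup := by
    rw [Multiset.nodup_iff_count_le_one]
    intro z
    rw [count_roots]
    by_contra hc
    push Not at hc
    have := (one_lt_rootMultiplicity_iff_isRoot hΨ0).1 hc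
    apply ht1 z (hroot z this.1)
    have h2 := this.2
    simp only [Ψ, derivative_sub, derivative_C, sub_zero, IsRoot] at h2
    simp [W, h2]
  have hcard : Ψ.roots.toFinset.card = d := by
    rw [Multiset.toFinset_card_of_nodup hnd, IsAlgClosed.card_roots_eq_natDegree, hΨd]
  let H : K[X] := ∑ l : Fin d, monomial (l : ℕ) ((v l).eval t)
  have hH0 : H ≠ 0 := by
    intro h0
    have := congrArg (fun P => coeff P l0) h0
    simp only [H, finset_sum_coeff, coeff_monomial, coeff_zero] at this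
    rw [sum_eq_single l0] at this
    · simp at this; exact ht2 this
    · intro b _ hb
      rw [if_neg]
      exact fun hh => hb (Fin.ext hh)
    · simp
  have hHd : H.natDegree ≤ d - 1 := by
    refine natDegree_sum_le_of_forall_le _ _ (fun l _ => (natDegree_monomial_le _).trans ?_)
    have := l.2
    omega
  have hHc : H.roots.toFinset.card < Ψ.roots.toFinset.card := by
    have a1 := Multiset.toFinset_card_le H.roots
    have a2 := card_roots' H
    omega
  obtain ⟨z, hz, z', hz', hne, heq⟩ := exists_ne_map_eq_of_card_lt_of_maps_to hHc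
    (f := fun z => z ^ s) (by
      intro z hz
      simp only [mem_coe, Multiset.mem_toFinset] at hz ⊢
      have hzt := hroot z ((mem_roots hΨ0).1 hz)
      rw [mem_roots hH0]
      have := congrArg (fun P => eval z P) h
      simp only [eval_finset_sum, eval_mul, eval_comp, eval_pow, eval_X, eval_zero, hzt] at this
      simp only [H, IsRoot, eval_finset_sum, eval_monomial, ← pow_mul]
      exact this)
  have hzt := hroot z ((mem_roots hΨ0).1 (Multiset.mem_toFinset.1 hz))
  have hzt' := hroot z' ((mem_roots hΨ0).1 (Multiset.mem_toFinset.1 hz'))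
  have hz0 : z ≠ 0 := by
    rintro rfl
    rw [zero_pow (by omega)] at heq
    exact hne (pow_eq_zero_iff (by omega) |>.1 heq.symm).symm
  have hζ : z' / z ∈ Z := by
    refine mem_erase.2 ⟨fun hh => hne ((div_eq_one_iff_eq hz0).1 hh).symm, ?_⟩
    rw [Multiset.mem_toFinset, mem_nthRoots hs, div_pow]
    rw [← heq]
    exact div_self (pow_ne_zero _ hz0)
  apply ht1 z hzt
  simp only [W, eval_mul, eval_prod]
  rw [prod_eq_zero hζ, mul_zero]
  simp only [eval_sub, eval_comp, eval_mul, eval_C, eval_X]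
  rw [div_mul_cancel₀ _ hz0, hzt, hzt', sub_self]

lemma indep {F : Type*} [Field F] (φ : F[X]) (d s : ℕ)
    (hd : φ.natDegree = d) (hs : 1 ≤ s) (hder : derivative φ ≠ 0)
    (v : Fin d → F[X]) (hv : v ≠ 0) (h : ∑ l, (v l).comp φ * X ^ (s * (l : ℕ)) = 0) :
    ∃ o, 1 < o ∧ ∀ i, φ.coeff i ≠ 0 → o ∣ i := by
  let ι := algebraMap F (AlgebraicClosure F)
  have hι : Function.Injective ι := ι.injective
  obtain ⟨o, ho, h2⟩ := indep_closed (φ.map ι) d s (by rw [natDegree_map, hd]) hs
    (by rw [derivative_map]; exact (Polynomial.map_ne_zero_iff hι).2 hder)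
    (fun l => (v l).map ι)
    (by
      intro h0
      apply hv
      funext l
      exact (Polynomial.map_eq_zero_iff hι).1 (congrFun h0 l))
    (by
      have := congrArg (Polynomial.map ι) h
      simpa [Polynomial.map_sum, map_comp] using this)
  refine ⟨o, ho, fun i hi => h2 i ?_⟩
  rw [coeff_map]
  exact (map_ne_zero_iff ι hι).2 hi

/-- digits of a polynomial in base `φ` -/
lemma digits {F : Type*} [Field F] (φ : F[X]) (d : ℕ) (hd : φ.natDegree = d) (hd1 : 1 ≤ d) (m : ℕ) :
    ∀ P : F[X], P.natDegree < d * (m + 1) →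
      ∃ E : Fin d → F[X], (∀ i, (E i).natDegree ≤ m) ∧ P = ∑ i, (E i).comp φ * X ^ (i : ℕ) := by
  have hφ0 : φ ≠ 0 := by rintro rfl; simp at hd; omega
  have base : ∀ P : F[X], P.natDegree < d → P = ∑ i : Fin d, C (P.coeff i) * X ^ (i : ℕ) := by
    intro P hP
    conv_lhs => rw [P.as_sum_range' d hP]
    rw [Fin.sum_univ_eq_sum_range (fun i => C (P.coeff i) * X ^ i)]
    simp only [C_mul_X_pow_eq_monomial]
  induction m with
  | zero =>
    intro P hP
    refine ⟨fun i => C (P.coeff i), fun i => by simp, ?_⟩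
    simp only [C_comp]
    exact base P (by simpa using hP)
  | succ m ih =>
    intro P hP
    have h1 : (P / φ).natDegree < d * (m + 1) := by
      by_cases h0 : P / φ = 0
      · rw [h0]; simp; omega
      · have a1 := EuclideanDomain.div_add_mod P φ
        have a2 : (P % φ).degree < φ.degree := degree_mod_lt _ hφ0
        have a3 : (P % φ).degree < (φ * (P / φ)).degree := by
          refine a2.trans_le ?_
          exact degree_le_mul_left _ h0
        have a4 : P.natDegree = (φ * (P / φ)).natDegree := by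
          conv_lhs => rw [← a1]
          exact natDegree_add_eq_left_of_degree_lt a3
        rw [natDegree_mul hφ0 h0, hd] at a4
        have : d * (m + 1 + 1) = d * (m + 1) + d := by ring
        omega
    obtain ⟨E, hE, hE2⟩ := ih _ h1
    have h2 : (P % φ).natDegree < d := by
      by_cases h0 : P % φ = 0
      · rw [h0]; simp; omega
      · rw [← hd]; exact natDegree_lt_natDegree h0 (degree_mod_lt _ hφ0)
    refine ⟨fun i => X * E i + C ((P % φ).coeff i), fun i => ?_, ?_⟩
    · rw [natDegree_add_C]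
      refine natDegree_mul_le.trans ?_
      have := hE i
      have := natDegree_X_le (R := F)
      omega
    · simp only [add_comp, mul_comp, X_comp, C_comp, add_mul, sum_add_distrib]
      rw [← base _ h2]
      simp only [mul_assoc, ← mul_sum]
      rw [← hE2, EuclideanDomain.div_add_mod]

end Pool.Agent.MP_dcfa1b_co

end

section

set_option autoImplicit false
open Polynomial Finset

namespace Pool.Agent.MP_dcfa1b_co

variable {F : Type*} [Field F]

lemma coeff_itdivX (φ : F[X]) (m j : ℕ) : (divX^[m] φ).coeff j = φ.coeff (j + m) := by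
  induction m generalizing j with
  | zero => simp
  | succ m ih =>
    rw [Function.iterate_succ_apply', coeff_divX, ih]
    congr 1
    ring

lemma natDegree_itdivX (φ : F[X]) (m : ℕ) : (divX^[m] φ).natDegree = φ.natDegree - m := by
  induction m with
  | zero => simp
  | succ m ih =>
    rw [Function.iterate_succ_apply', natDegree_divX_eq_natDegree_tsub_one, ih]
    omega

lemma horner_aux (φ : F[X]) (x : F) (m : ℕ) :
    (X - C x) * ∑ i ∈ range m, divX^[i + 1] φ * C (x ^ i) =
      φ - C (∑ i ∈ range m, φ.coeff i * x ^ i) - divX^[m] φ * C (x ^ m) := by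
  induction m with
  | zero => simp
  | succ m ih =>
    rw [sum_range_succ, mul_add, ih, sum_range_succ]
    have h1 := X_mul_divX_add (divX^[m] φ)
    rw [coeff_itdivX, zero_add, ← Function.iterate_succ_apply' divX m φ] at h1
    simp only [C_add, C_mul, pow_succ] at h1 ⊢
    rw [← h1]
    simp only [Nat.succ_eq_add_one]
    ring

lemma horner (φ : F[X]) (x : F) (d : ℕ) (hd : φ.natDegree = d) :
    (X - C x) * ∑ i : Fin d, divX^[(i : ℕ) + 1] φ * C (x ^ (i : ℕ)) = φ - C (φ.eval x) := by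
  rw [Fin.sum_univ_eq_sum_range (fun i => divX^[i + 1] φ * C (x ^ i)), horner_aux]
  have h1 : divX^[d] φ = C (φ.coeff d) := by
    have : (divX^[d] φ).natDegree ≤ 0 := by rw [natDegree_itdivX]; omega
    rw [eq_C_of_natDegree_le_zero this, coeff_itdivX, zero_add]
  rw [h1, eval_eq_sum_range, hd, sum_range_succ]
  simp only [C_add, C_mul]
  ring

lemma geo (φ : F[X]) (y : F) (hy : y ≠ 0) (K : ℕ) :
    (φ - C y) * ∑ n ∈ range K, C (y⁻¹ ^ (n + 1)) * φ ^ n = C (y⁻¹ ^ K) * φ ^ K - 1 := by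
  have h1 : C y * C y⁻¹ = (1 : F[X]) := by rw [← C_mul, mul_inv_cancel₀ hy, C_1]
  induction K with
  | zero => simp
  | succ K ih =>
    rw [sum_range_succ, mul_add, ih]
    simp only [pow_succ, C_mul]
    linear_combination (-(C (y⁻¹ ^ K) * φ ^ K)) * h1

variable [Fintype F] [DecidableEq F]

/-- `∑_{x ≠ 1} x^j / φ(x)^k` -/
noncomputable def lam (φ : F[X]) (j k : ℕ) : F := ∑ x ∈ univ.erase (1 : F), x ^ j * (φ.eval x)⁻¹ ^ k

noncomputable def Sser (φ : F[X]) (K i : ℕ) : F[X] := ∑ n ∈ range K, monomial n (lam φ i (n + 1))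

noncomputable def Gp (φ : F[X]) (d K : ℕ) : F[X] :=
  ∑ i : Fin d, divX^[(i : ℕ) + 1] φ * (Sser φ K i).comp φ

lemma sum_shift_pow (m : ℕ) (hm : m < Fintype.card F - 1) :
    ∑ x ∈ univ.erase (1 : F), (x - 1) ^ m = if m = 0 then -1 else 0 := by
  have h1 : ∑ x : F, (x - 1) ^ m = 0 := by
    rw [← FiniteField.sum_pow_lt_card_sub_one F m hm]
    exact Equiv.sum_comp (Equiv.subRight (1 : F)) (fun y => y ^ m)
  rw [← add_sum_erase _ _ (mem_univ (1 : F))] at h1
  split_ifs with h
  · subst h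
    simp only [pow_zero] at h1 ⊢
    linear_combination h1
  · rw [sub_self, zero_pow h, zero_add] at h1
    exact h1

lemma G_ident (φ : F[X]) (d K : ℕ) (hd : φ.natDegree = d) (hne : ∀ x, x ≠ 1 → φ.eval x ≠ 0) :
    ∃ H, Gp φ d K * ((X - C 1) ^ (Fintype.card F - 1) - 1) =
      φ ^ K * H + (X - C 1) ^ (Fintype.card F - 2) := by
  set q := Fintype.card F with hq
  have hq2 : 2 ≤ q := Fintype.one_lt_card
  let Om : F → F[X] := fun x => ∑ m ∈ range (q - 1), (X - C 1) ^ m * C (x - 1) ^ (q - 1 - 1 - m)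
  have hOm : ∀ x ∈ univ.erase (1 : F), Om x * (X - C x) = (X - C 1) ^ (q - 1) - 1 := by
    intro x hx
    have h1 := geom_sum₂_mul (X - C (1 : F)) (C (x - 1)) (q - 1)
    have h2 : (x - 1) ^ (q - 1) = 1 :=
      FiniteField.pow_card_sub_one_eq_one _ (sub_ne_zero.2 (mem_erase.1 hx).1)
    rw [← C_pow, h2] at h1
    simp only [Om, C_sub, C_1] at h1 ⊢
    rw [← h1]
    ring
  have hsum : ∑ x ∈ univ.erase (1 : F), Om x = -(X - C 1) ^ (q - 2) := by
    simp only [Om]
    rw [sum_comm]
    simp only [← mul_sum, ← C_pow, ← map_sum]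
    rw [sum_eq_single (q - 2)]
    · rw [sum_shift_pow _ (by omega), if_pos (by omega)]
      simp
    · intro m hm hne
      have := mem_range.1 hm
      rw [sum_shift_pow _ (by omega), if_neg (by omega)]
      simp
    · intro h
      exact absurd (mem_range.2 (by omega)) h
  have hG : Gp φ d K = ∑ x ∈ univ.erase (1 : F),
      (∑ i : Fin d, divX^[(i : ℕ) + 1] φ * C (x ^ (i : ℕ))) *
        ∑ n ∈ range K, C ((φ.eval x)⁻¹ ^ (n + 1)) * φ ^ n := by
    simp only [Gp, Sser, Polynomial.sum_comp, monomial_comp]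
    simp only [lam, sum_mul, map_sum, mul_sum]
    rw [sum_comm (s := univ.erase (1 : F))]
    rw [sum_comm]
    refine sum_congr rfl (fun n _ => ?_)
    rw [sum_comm]
    refine sum_congr rfl (fun x _ => sum_congr rfl (fun i _ => ?_))
    simp only [C_mul]
    ring
  refine ⟨∑ x ∈ univ.erase (1 : F), C ((φ.eval x)⁻¹ ^ K) * Om x, ?_⟩
  rw [hG, sum_mul, mul_sum, ← neg_neg ((X - C (1 : F)) ^ (q - 2)), ← hsum, ← sub_eq_add_neg,
    ← sum_sub_distrib]
  refine sum_congr rfl (fun x hx => ?_)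
  rw [← hOm x hx]
  have h1 := horner φ x d hd
  have h2 := geo φ _ (hne x (mem_erase.1 hx).1) K
  rw [← h1] at h2
  linear_combination Om x * h2

omit [Fintype F] [DecidableEq F] in
lemma coeff_one_add_pow (Y : F[X]) (j l : ℕ) (h : ∀ m, l < m → (Y ^ m).coeff j = 0) (k : ℕ) :
    ((Y + 1) ^ k).coeff j = ∑ m ∈ range (l + 1), (k.choose m : F) * (Y ^ m).coeff j := by
  rw [add_pow, finset_sum_coeff]
  simp only [one_pow, mul_one, coeff_mul_natCast]
  have a1 : ∑ m ∈ range (k + 1), (Y ^ m).coeff j * (k.choose m : F) =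
      ∑ m ∈ range (k + 1 + (l + 1)), (Y ^ m).coeff j * (k.choose m : F) := by
    apply sum_subset (range_subset_range.2 (by omega))
    intro m _ hm
    rw [Nat.choose_eq_zero_of_lt (by simpa using hm)]
    simp
  have a2 : ∑ m ∈ range (l + 1), (k.choose m : F) * (Y ^ m).coeff j =
      ∑ m ∈ range (k + 1 + (l + 1)), (k.choose m : F) * (Y ^ m).coeff j := by
    apply sum_subset (range_subset_range.2 (by omega))
    intro m _ hm
    rw [h m (by simpa using hm)]
    simp
  rw [a1, a2]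
  exact sum_congr rfl (fun m _ => mul_comm _ _)

omit [Fintype F] in
lemma bad_card (ψ : F[X]) (s l p : ℕ) [CharP F p] (hp : p.Prime) (hs : 1 ≤ s) (hψ : ψ.coeff 0 ≠ 0)
    (hl : l < p) :
    ((range p).filter (fun k => ((X ^ s * ψ + 1) ^ k).coeff (s * l) = 0)).card ≤ l := by
  have hfac : ∀ m, m ≤ l → ((m.factorial : ℕ) : F) ≠ 0 := by
    intro m hm h0
    rw [CharP.cast_eq_zero_iff F p, hp.dvd_factorial] at h0
    omega
  let a : ℕ → F := fun m => ((X ^ s * ψ) ^ m).coeff (s * l)
  have hz : ∀ m, l < m → ((X ^ s * ψ) ^ m).coeff (s * l) = 0 := by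
    intro m hm
    rw [mul_pow, ← pow_mul, coeff_X_pow_mul', if_neg]
    have : s * l < s * m := Nat.mul_lt_mul_of_pos_left hm hs
    omega
  have hal : a l ≠ 0 := by
    simp only [a]
    rw [mul_pow, ← pow_mul, coeff_X_pow_mul', if_pos le_rfl, Nat.sub_self, coeff_zero_eq_eval_zero,
      eval_pow, ← coeff_zero_eq_eval_zero]
    exact pow_ne_zero _ hψ
  let Q : F[X] := ∑ m ∈ range (l + 1), C (a m / (m.factorial : F)) * descPochhammer F m
  have hQd : Q.natDegree ≤ l := by
    refine natDegree_sum_le_of_forall_le _ _ (fun m hm => (natDegree_C_mul_le _ _).trans ?_)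
    rw [descPochhammer_natDegree]
    have := mem_range.1 hm
    omega
  have hQ0 : Q ≠ 0 := by
    intro h0
    have h1 := congrArg (fun P => coeff P l) h0
    simp only [Q, finset_sum_coeff, coeff_C_mul, coeff_zero] at h1
    rw [sum_eq_single l] at h1
    · have h2 : (descPochhammer F l).coeff l = 1 := by
        have := (monic_descPochhammer F l).coeff_natDegree
        rwa [descPochhammer_natDegree] at this
      rw [h2, mul_one] at h1
      exact div_ne_zero hal (hfac l le_rfl) h1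
    · intro m hm hne
      have := mem_range.1 hm
      rw [coeff_eq_zero_of_natDegree_lt (by rw [descPochhammer_natDegree]; omega), mul_zero]
    · intro h; exact absurd (mem_range.2 (by omega)) h
  have hev : ∀ k : ℕ, Q.eval (k : F) = ((X ^ s * ψ + 1) ^ k).coeff (s * l) := by
    intro k
    rw [coeff_one_add_pow _ _ l hz]
    simp only [Q, eval_finset_sum, eval_mul, eval_C, descPochhammer_eval_eq_descFactorial]
    refine sum_congr rfl (fun m hm => ?_)
    have := hfac m (by have := mem_range.1 hm; omega)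
    rw [Nat.descFactorial_eq_factorial_mul_choose]
    push_cast
    simp only [a]
    field_simp
  refine le_trans ?_ ((Multiset.toFinset_card_le Q.roots).trans ((card_roots' Q).trans hQd))
  refine card_le_card_of_injOn (fun k : ℕ => (k : F)) ?_ ?_
  · intro k hk
    simp only [coe_filter, mem_range, Set.mem_setOf_eq] at hk
    simp only [mem_coe, Multiset.mem_toFinset]
    rw [mem_roots hQ0, IsRoot, hev]
    exact hk.2
  · intro k hk k' hk' h
    simp only [coe_filter, mem_range, Set.mem_setOf_eq] at hk hk'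
    exact CharP.natCast_injOn_Iio F p hk.1 hk'.1 h

end Pool.Agent.MP_dcfa1b_co

end

section

set_option autoImplicit false
open Polynomial Finset

namespace Pool.Agent.MP_dcfa1b_co

variable {F : Type*} [Field F]

noncomputable def blk (w : ℕ) (Z : F[X]) (c : ℕ) : F[X] :=
  ∑ t ∈ range w, monomial t (Z.coeff (t + c * w))

lemma one_block (Z : F[X]) (w : ℕ) :
    Z = ∑ t ∈ range w, monomial t (Z.coeff t) + X ^ w * divX^[w] Z := by
  ext n
  simp only [coeff_add, finset_sum_coeff, coeff_monomial, coeff_X_pow_mul', coeff_itdivX,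
    sum_ite_eq', mem_range]
  by_cases h : n < w
  · rw [if_pos h, if_neg (by omega), add_zero]
  · rw [if_neg h, if_pos (by omega), zero_add, Nat.sub_add_cancel (by omega)]

lemma blocks (Z : F[X]) (w M : ℕ) :
    Z = ∑ c ∈ range M, blk w Z c * X ^ (c * w) + X ^ (M * w) * divX^[M * w] Z := by
  induction M with
  | zero => simp
  | succ M ih =>
    have h1 := one_block (divX^[M * w] Z) w
    rw [← Function.iterate_add_apply] at h1
    simp only [coeff_itdivX] at h1
    have e1 : (M + 1) * w = w + M * w := by ring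
    rw [sum_range_succ, e1, pow_add]
    unfold blk at ih ⊢
    linear_combination ih + X ^ (M * w) * h1

lemma blk_deg (Z : F[X]) (w c : ℕ) : (blk w Z c).natDegree ≤ w - 1 := by
  refine natDegree_sum_le_of_forall_le _ _ (fun t ht => (natDegree_monomial_le _).trans ?_)
  have := mem_range.1 ht
  omega

/-- The sparse polynomial lemma in block form. -/
lemma sparse (φ : F[X]) (d p w M : ℕ) [CharP F p] (hd : φ.natDegree = d) (hd1 : 1 ≤ d)
    (hw : 1 ≤ w) (hM : 1 ≤ M) (hu : X - C 1 ∣ φ) (A : ℕ → F[X])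
    (hA : ∀ c, (A c).natDegree ≤ d * w - 1) (hp : d * (M * w) ≤ p) (h0 : A 0 ≠ 0) (R : ℕ)
    (T : Finset ℕ) (hT : T.card ≤ R) (hAT : ∀ c < M, A c ≠ 0 → c ∈ T) (V : ℕ)
    (hV : (X - C 1) ^ V ∣ ∑ c ∈ range M, A c * φ ^ (c * w)) :
    2 * V ≤ 2 * R * (d * w) + R * R * d := by
  classical
  have hφ0 : φ ≠ 0 := by rintro rfl; simp at hd; omega
  let Cs := (range M).filter (fun c => A c ≠ 0)
  have hr : Cs.card ≤ R := by
    refine le_trans (card_le_card ?_) hT
    intro c hc
    obtain ⟨a1, a2⟩ := mem_filter.1 hc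
    exact hAT c (mem_range.1 a1) a2
  let e : Fin Cs.card → ℕ := fun i => (Cs.equivFin.symm i : ℕ)
  have he : ∀ i, e i < M ∧ A (e i) ≠ 0 := by
    intro i
    obtain ⟨a1, a2⟩ := mem_filter.1 (Cs.equivFin.symm i).2
    exact ⟨mem_range.1 a1, a2⟩
  have hdw : 1 ≤ d * w := Nat.mul_pos hd1 hw
  have hdeg : ∀ i, (A (e i) * φ ^ (e i * w)).natDegree = (A (e i)).natDegree + e i * (d * w) := by
    intro i
    rw [natDegree_mul (he i).2 (pow_ne_zero _ hφ0), natDegree_pow, hd]
    ring
  have h00 : 0 ∈ Cs := mem_filter.2 ⟨mem_range.2 hM, h0⟩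
  have key := wronsk φ (d - 1) (d * w - 1) V 1 (by omega) hu (fun i => A (e i)) (fun i => e i * w)
    (fun i => (he i).2) (fun i => hA _)
    (by
      intro i j hij
      have lt : ∀ i, (A (e i) * φ ^ (e i * w)).natDegree < p := by
        intro i
        rw [hdeg]
        have a1 := hA (e i)
        have a2 : (e i + 1) * (d * w) ≤ M * (d * w) := Nat.mul_le_mul_right _ (he i).1
        have a3 : M * (d * w) = d * (M * w) := by ring
        have a4 : (e i + 1) * (d * w) = e i * (d * w) + d * w := by ring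
        omega
      have h1 := CharP.natCast_injOn_Iio F p (lt i) (lt j) hij
      rw [hdeg, hdeg] at h1
      have a1 := hA (e i)
      have a2 := hA (e j)
      have h2 := congrArg (fun x => x / (d * w)) h1
      simp only [Nat.add_mul_div_right _ _ hdw] at h2
      rw [Nat.div_eq_of_lt (by omega), Nat.div_eq_of_lt (by omega)] at h2
      apply Cs.equivFin.symm.injective
      apply Subtype.ext
      rw [zero_add, zero_add] at h2
      exact h2)
    (Cs.equivFin ⟨0, h00⟩) (by simp [e])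
    (by
      have : ∑ i, A (e i) * φ ^ (e i * w) = ∑ c ∈ range M, A c * φ ^ (c * w) := by
        rw [Equiv.sum_comp Cs.equivFin.symm (fun c : Cs => A c * φ ^ ((c : ℕ) * w)),
          sum_coe_sort Cs (fun c => A c * φ ^ (c * w))]
        apply sum_subset (filter_subset _ _)
        intro c hc hn
        have : A c = 0 := by
          by_contra h
          exact hn (mem_filter.2 ⟨hc, h⟩)
        simp [this]
      rw [this]
      exact hV)
  rw [Fin.sum_univ_eq_sum_range (fun l => l)] at key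
  have h3 := sum_range_id_mul_two Cs.card
  set σ := ∑ i ∈ range Cs.card, i
  set r := Cs.card
  have b1 : r * (d * w - 1) ≤ R * (d * w) := Nat.mul_le_mul hr (by omega)
  have b2 : r * (r - 1) ≤ R * R := Nat.mul_le_mul hr (by omega)
  have b3 : (σ * 2) * (d - 1) ≤ R * R * d := by rw [h3]; exact Nat.mul_le_mul b2 (by omega)
  have b4 : (σ * 2) * (d - 1) = 2 * (σ * (d - 1)) := by ring
  have b5 : 2 * R * (d * w) = 2 * (R * (d * w)) := by ring
  omega

variable [Fintype F] [DecidableEq F]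

lemma coeff_Sser (φ : F[X]) (K i n : ℕ) (hn : n < K) : (Sser φ K i).coeff n = lam φ i (n + 1) := by
  simp only [Sser, finset_sum_coeff, coeff_monomial, sum_ite_eq', mem_range, if_pos hn]

lemma coeff_Sh (φ : F[X]) (d K j m : ℕ) (hne : ∀ x, x ≠ 1 → φ.eval x ≠ 0) (E : Fin d → F[X])
    (hE : ∀ i, (E i).natDegree ≤ m) (hm : m < K)
    (hX : (X : F[X]) ^ j = ∑ i, (E i).comp φ * X ^ (i : ℕ)) :
    (∑ i, E i * Sser φ K i).coeff m = lam φ j (m + 1) := by
  have h1 : ∀ i : Fin d, (E i * Sser φ K i).coeff m =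
      ∑ x ∈ univ.erase (1 : F), (E i).eval (φ.eval x) * x ^ (i : ℕ) * (φ.eval x)⁻¹ ^ (m + 1) := by
    intro i
    rw [coeff_mul, Finset.Nat.sum_antidiagonal_eq_sum_range_succ_mk]
    have : ∀ t ∈ range (m + 1), (E i).coeff t * (Sser φ K i).coeff (m - t) =
        ∑ x ∈ univ.erase (1 : F),
          (E i).coeff t * (φ.eval x) ^ t * x ^ (i : ℕ) * (φ.eval x)⁻¹ ^ (m + 1) := by
      intro t ht
      have ht' := mem_range.1 ht
      rw [coeff_Sser φ K i _ (by omega), lam, mul_sum]
      refine sum_congr rfl (fun x hx => ?_)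
      have hy := hne x (mem_erase.1 hx).1
      have e1 : m + 1 = t + (m - t + 1) := by omega
      have e2 : (φ.eval x) ^ t * (φ.eval x)⁻¹ ^ t = 1 := by
        rw [← mul_pow, mul_inv_cancel₀ hy, one_pow]
      rw [e1, pow_add (φ.eval x)⁻¹ t]
      linear_combination (-((E i).coeff t * x ^ (i : ℕ) * (φ.eval x)⁻¹ ^ (m - t + 1))) * e2
    rw [sum_congr rfl this, sum_comm]
    refine sum_congr rfl (fun x _ => ?_)
    rw [eval_eq_sum_range' (Nat.lt_succ_of_le (hE i)), sum_mul, sum_mul]
  rw [finset_sum_coeff]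
  simp only [h1]
  rw [sum_comm, lam]
  refine sum_congr rfl (fun x _ => ?_)
  have h2 := congrArg (fun P => eval x P) hX
  simp only [eval_pow, eval_X, eval_finset_sum, eval_mul, eval_comp] at h2
  rw [h2, sum_mul]

lemma core (φ : F[X]) (d p : ℕ) [CharP F p] (hp : p.Prime) (hd : φ.natDegree = d) (hd1 : 1 ≤ d)
    (h0 : φ.coeff 0 = 1) (h1 : φ.eval 1 = 0) (hne : ∀ x, x ≠ 1 → φ.eval x ≠ 0)
    (hbig : 16 * d ^ 6 + 3 < p)
    (hvan : ∀ k, 1 ≤ k → 2 * d * k + 3 < Fintype.card F → ∀ j < d * k,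
      (φ ^ k).coeff j * lam φ j k = 0)
    (hno : ¬ ∃ o, 1 < o ∧ ∀ i, φ.coeff i ≠ 0 → o ∣ i) :
    φ ∣ (X - C 1) ^ (Fintype.card F - 2) := by
  by_contra hnd
  have hφ0 : φ ≠ 0 := by rintro rfl; simp at hd; omega
  have hpq : p ≤ Fintype.card F := by
    obtain ⟨n, -, hn⟩ := FiniteField.card F p
    rw [hn]
    exact Nat.le_self_pow n.ne_zero p
  set w := d * d + 1 with hw
  set M := 4 * d ^ 3 with hM
  set K := M * w with hK
  have hd3 : 1 ≤ d ^ 3 := Nat.one_le_pow _ _ hd1
  have hK2 : 2 * d * K + 3 < p := by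
    have a1 : d ^ 4 ≤ d ^ 6 := Nat.pow_le_pow_right hd1 (by omega)
    have a2 : 2 * d * K = 8 * d ^ 6 + 8 * d ^ 4 := by rw [hK, hM, hw]; ring
    omega
  have hK1 : 1 ≤ K := Nat.mul_pos (by omega) (by omega)
  have hdK : K ≤ d * K := Nat.le_mul_of_pos_left _ hd1
  have hdK' : d ≤ d * K := Nat.le_mul_of_pos_right _ hK1
  have hdK2 : 2 * d * K = 2 * (d * K) := by ring
  have hu : X - C 1 ∣ φ := dvd_iff_isRoot.2 h1
  -- the shape of `φ` at zero
  have hφ1 : φ - 1 ≠ 0 := by
    intro h
    rw [sub_eq_zero.1 h] at h1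
    simp at h1
  obtain ⟨ψ, hψ1, hψ2⟩ := exists_eq_pow_rootMultiplicity_mul_and_not_dvd (φ - 1) hφ1 0
  have hs1 : 1 ≤ rootMultiplicity 0 (φ - 1) := by
    apply (rootMultiplicity_pos hφ1).2
    rw [IsRoot, ← coeff_zero_eq_eval_zero]
    simp [h0]
  set s := rootMultiplicity 0 (φ - 1)
  rw [C_0, sub_zero] at hψ1 hψ2
  rw [X_dvd_iff] at hψ2
  have hφs : φ = X ^ s * ψ + 1 := by rw [← hψ1]; ring
  have hsd : s ≤ d := by
    have a1 : (φ - 1).natDegree = d := by rw [← C_1, natDegree_sub_C, hd]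
    have a2 : ψ ≠ 0 := by rintro rfl; simp at hψ2
    rw [hψ1, natDegree_mul (pow_ne_zero _ X_ne_zero) a2, natDegree_X_pow] at a1
    omega
  have hsl : ∀ l : Fin d, s * (l : ℕ) ≤ d * d := fun l => Nat.mul_le_mul hsd l.2.le
  have hder : derivative φ ≠ 0 := by
    intro h
    have a1 := congrArg (fun P => coeff P (d - 1)) h
    simp only [coeff_derivative, coeff_zero] at a1
    have a2 : d - 1 + 1 = d := by omega
    have a3 : ((d - 1 : ℕ) : F) + 1 = (d : F) := by exact_mod_cast congrArg (Nat.cast (R := F)) a2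
    rw [a2, a3] at a1
    rcases mul_eq_zero.1 a1 with a4 | a4
    · rw [← hd] at a4; exact hφ0 (leadingCoeff_eq_zero.1 a4)
    · rw [CharP.cast_eq_zero_iff F p] at a4
      have := Nat.le_of_dvd hd1 a4
      omega
  -- digits
  have hdig : ∀ l : Fin d, ∃ E : Fin d → F[X], (∀ i, (E i).natDegree ≤ d) ∧
      (X : F[X]) ^ (s * (l : ℕ)) = ∑ i, (E i).comp φ * X ^ (i : ℕ) := by
    intro l
    apply digits φ d hd hd1 d
    rw [natDegree_X_pow]
    have := hsl l
    have : d * (d + 1) = d * d + d := by ring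
    omega
  choose E hE1 hE2 using hdig
  let Em : Matrix (Fin d) (Fin d) F[X] := Matrix.of E
  have hδ : Em.det ≠ 0 := by
    intro h
    obtain ⟨v, hv, hv2⟩ := Matrix.exists_vecMul_eq_zero_iff.2 h
    apply hno
    apply indep φ d s hd hs1 hder v hv
    simp only [hE2, mul_sum]
    rw [sum_comm]
    refine sum_eq_zero (fun i _ => ?_)
    have a1 := congrFun hv2 i
    simp only [Matrix.vecMul, dotProduct, Em, Matrix.of_apply, Pi.zero_apply] at a1
    have a2 := congrArg (fun P => P.comp φ) a1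
    simp only [Polynomial.sum_comp, mul_comp, zero_comp] at a2
    simp only [← mul_assoc, ← sum_mul, a2, zero_mul]
  have hδd : Em.det.natDegree ≤ d * d := by
    have := (det_top Em (fun _ => d) (fun _ => 0) (fun l i => hE1 l i)).1
    simpa using this
  have hadj : ∀ i l, (Em.adjugate i l).natDegree ≤ d * d := by
    intro i l
    rw [Matrix.adjugate_apply]
    have := (det_top (Em.updateRow l (Pi.single i 1)) (fun _ => d) (fun _ => 0) (fun a b => by
      rw [Matrix.updateRow_apply]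
      split_ifs
      · rw [Pi.single_apply]
        split_ifs <;> simp
      · exact hE1 a b)).1
    simpa using this
  -- the bad set
  let Bad : Finset ℕ := range d ∪ (univ : Finset (Fin d)).biUnion (fun l =>
    ((range p).filter (fun k => ((X ^ s * ψ + 1) ^ k).coeff (s * (l : ℕ)) = 0)).image (· - 1))
  have hBad : Bad.card ≤ d * d := by
    refine (card_union_le _ _).trans ?_
    have a1 : ((univ : Finset (Fin d)).biUnion (fun l =>
        ((range p).filter (fun k => ((X ^ s * ψ + 1) ^ k).coeff (s * (l : ℕ)) = 0)).image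
          (· - 1))).card ≤ (univ : Finset (Fin d)).card * (d - 1) := by
      apply card_biUnion_le_card_mul
      intro l _
      have := l.2
      exact card_image_le.trans ((bad_card ψ s l p hp hs1 hψ2 (by omega)).trans (by omega))
    rw [card_univ, Fintype.card_fin] at a1
    rw [card_range]
    have : d * (d - 1) + d = d * d := by
      rw [← Nat.mul_succ]; congr 1; omega
    omega
  let Sh : Fin d → F[X] := fun l => ∑ i, E l i * Sser φ K i
  have hSh : ∀ l m, m < K → m ∉ Bad → (Sh l).coeff m = 0 := by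
    intro l m hm hmB
    simp only [Bad, mem_union, not_or, mem_range, mem_biUnion, mem_univ, true_and, not_exists,
      mem_image, mem_filter, not_and] at hmB
    have a1 : d ≤ m := by omega
    have a2 := coeff_Sh φ d K _ m hne (E l) (fun i => (hE1 l i).trans a1) hm (hE2 l)
    simp only [Sh]
    rw [a2]
    have a3 : 2 * d * (m + 1) ≤ 2 * d * K := Nat.mul_le_mul_left _ hm
    have a4 : d * (d + 1) ≤ d * (m + 1) := Nat.mul_le_mul_left _ (by omega)
    have a5 := hvan (m + 1) (by omega) (by omega) (s * l) (by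
      have := hsl l
      have : d * (d + 1) = d * d + d := by ring
      omega)
    refine (mul_eq_zero.1 a5).resolve_left (fun h => ?_)
    exact hmB.2 l (m + 1) ⟨by omega, by rw [← hφs]; exact h⟩ (by simp)
  let Z : Fin d → F[X] := fun i => Em.det * Sser φ K i
  have hZ : ∀ i, Z i = ∑ l, Em.adjugate i l * Sh l := by
    intro i
    simp only [Sh, mul_sum, Z]
    rw [sum_comm]
    have : ∀ j : Fin d, ∑ l, Em.adjugate i l * (E l j * Sser φ K j) =
        (Em.adjugate * Em) i j * Sser φ K j := by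
      intro j
      rw [Matrix.mul_apply, sum_mul]
      exact sum_congr rfl (fun l _ => by simp only [Em, Matrix.of_apply]; ring)
    simp only [this, Matrix.adjugate_mul, Matrix.smul_apply, Matrix.one_apply, smul_eq_mul]
    rw [sum_eq_single i]
    · simp
    · intro j _ hj; simp [hj.symm]
    · simp
  have hZs : ∀ i m, m < K → (Z i).coeff m ≠ 0 → ∃ b ∈ Bad, b ≤ m ∧ m ≤ b + d * d := by
    intro i m hm hc
    by_contra hcon
    push Not at hcon
    apply hc
    rw [hZ, finset_sum_coeff]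
    refine sum_eq_zero (fun l _ => ?_)
    rw [coeff_mul]
    refine sum_eq_zero (fun ab hab => ?_)
    have a1 := mem_antidiagonal.1 hab
    by_cases hb : ab.2 ∈ Bad
    · have := hcon _ hb (by omega)
      have := hadj i l
      rw [coeff_eq_zero_of_natDegree_lt (by omega), zero_mul]
    · rw [hSh l _ (by omega) hb, mul_zero]
  let A : ℕ → F[X] := fun c => ∑ i : Fin d, divX^[(i : ℕ) + 1] φ * (blk w (Z i) c).comp φ
  have hA : ∀ c, (A c).natDegree ≤ d * w - 1 := by
    intro c
    refine natDegree_sum_le_of_forall_le _ _ (fun i _ => natDegree_mul_le.trans ?_)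
    rw [natDegree_itdivX, hd]
    have a1 : ((blk w (Z i) c).comp φ).natDegree ≤ (w - 1) * d := by
      refine natDegree_comp_le.trans ?_
      rw [hd]
      exact Nat.mul_le_mul_right _ (blk_deg _ _ _)
    have a2 : (w - 1) * d + d = d * w := by
      rw [← Nat.succ_mul, mul_comm]; congr 1
    omega
  have hΓ : ∀ M', ∃ R, Em.det.comp φ * Gp φ d K =
      ∑ c ∈ range M', A c * φ ^ (c * w) + φ ^ (M' * w) * R := by
    intro M'
    refine ⟨∑ i : Fin d, divX^[(i : ℕ) + 1] φ * (divX^[M' * w] (Z i)).comp φ, ?_⟩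
    simp only [A, Gp, mul_sum, sum_mul]
    rw [sum_comm, ← sum_add_distrib]
    refine sum_congr rfl (fun i _ => ?_)
    have a1 := congrArg (fun P => P.comp φ) (blocks (Z i) w M')
    simp only [add_comp, Polynomial.sum_comp, mul_comp, X_pow_comp] at a1
    have a2 : (Z i).comp φ = Em.det.comp φ * (Sser φ K i).comp φ := by simp only [Z, mul_comp]
    rw [a2] at a1
    simp only [mul_assoc, ← mul_sum]
    linear_combination divX^[(i : ℕ) + 1] φ * a1
  obtain ⟨H, hH⟩ := G_ident φ d K hd hne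
  have hGdvd : (X - C 1) ^ K ∣ Gp φ d K := by
    have a1 : (X - C (1 : F)) ^ K ∣ φ ^ K * H + (X - C 1) ^ (Fintype.card F - 2) :=
      dvd_add ((pow_dvd_pow_of_dvd hu K).mul_right _) (pow_dvd_pow _ (by omega))
    have a2 : (X - C (1 : F)) ^ K ∣ Gp φ d K * (X - C 1) ^ (Fintype.card F - 1) :=
      (pow_dvd_pow _ (by omega)).mul_left _
    rw [← hH] at a1
    have := dvd_sub a2 a1
    convert this using 1
    ring
  have hA0 : A 0 ≠ 0 := by
    intro hA0
    obtain ⟨R, hR⟩ := hΓ 1
    rw [sum_range_one, hA0, zero_mul, zero_add, one_mul] at hR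
    obtain ⟨δ', hδ1, hδ2⟩ := exists_eq_pow_rootMultiplicity_mul_and_not_dvd _ hδ 0
    set ν := rootMultiplicity 0 Em.det
    rw [C_0, sub_zero] at hδ1 hδ2
    rw [X_dvd_iff] at hδ2
    have hν : ν ≤ d * d := by
      have a2 : δ' ≠ 0 := by rintro rfl; simp at hδ2
      rw [hδ1, natDegree_mul (pow_ne_zero _ X_ne_zero) a2, natDegree_X_pow] at hδd
      omega
    have e1 : w = ν + ((d * d - ν) + 1) := by omega
    rw [hδ1, mul_comp, X_pow_comp, e1, pow_add, mul_assoc, mul_assoc] at hR
    have a3 := mul_left_cancel₀ (pow_ne_zero _ hφ0) hR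
    have a4 := congrArg (fun P => P.comp φ) (X_mul_divX_add δ')
    simp only [add_comp, mul_comp, X_comp, C_comp] at a4
    have a5 : φ ∣ C (δ'.coeff 0) * Gp φ d K :=
      ⟨φ ^ (d * d - ν) * R - (divX δ').comp φ * Gp φ d K, by
        rw [← a4, pow_succ] at a3
        linear_combination a3⟩
    have a6 : φ ∣ Gp φ d K := (isUnit_C.2 (IsUnit.mk0 _ hδ2)).dvd_mul_left.1 a5
    apply hnd
    have a7 : φ ∣ φ ^ K * H := (dvd_pow_self φ (by omega)).mul_right _
    have a8 := dvd_sub (a6.mul_right ((X - C 1) ^ (Fintype.card F - 1) - 1)) a7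
    rw [hH] at a8
    simpa using a8
  have hfin := sparse φ d p w M hd hd1 (by omega) (by omega) hu A hA (by rw [← hK]; omega) hA0 (2 * (d * d))
    (Bad.image (· / w) ∪ Bad.image (fun b => b / w + 1))
    (by
      refine (card_union_le _ _).trans ?_
      have a1 := card_image_le (s := Bad) (f := (· / w))
      have a2 := card_image_le (s := Bad) (f := fun b => b / w + 1)
      omega)
    (by
      intro c hc hAc
      obtain ⟨i, -, hi⟩ := exists_ne_zero_of_sum_ne_zero hAc
      have a1 : blk w (Z i) c ≠ 0 := by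
        intro h
        rw [h] at hi
        simp at hi
      obtain ⟨t, ht, ht2⟩ := exists_ne_zero_of_sum_ne_zero a1
      have ht' := mem_range.1 ht
      have a2 : (c + 1) * w ≤ M * w := Nat.mul_le_mul_right _ hc
      have a3 : (c + 1) * w = c * w + w := by ring
      obtain ⟨b, hb, hb1, hb2⟩ := hZs i (t + c * w) (by omega) (by
        intro h
        rw [h] at ht2
        simp at ht2)
      have hw0 : 0 < w := by omega
      have a4 : b / w ≤ c := by
        rw [← Nat.lt_succ_iff, Nat.div_lt_iff_lt_mul hw0]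
        simp only [Nat.succ_eq_add_one]
        omega
      have a5 : c ≤ b / w + 1 := by
        rw [← Nat.add_div_right b hw0, Nat.le_div_iff_mul_le hw0]
        omega
      rw [mem_union, mem_image, mem_image]
      by_cases h : b / w = c
      · exact Or.inl ⟨b, hb, h⟩
      · exact Or.inr ⟨b, hb, by omega⟩)
    K
    (by
      obtain ⟨R, hR⟩ := hΓ M
      have a1 : (X - C (1 : F)) ^ K ∣ φ ^ (M * w) * R := (pow_dvd_pow_of_dvd hu K).mul_right _
      have a2 := dvd_sub (hGdvd.mul_left (Em.det.comp φ)) a1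
      rw [hR] at a2
      simpa using a2)
  have b1 : 2 * K = 8 * d ^ 5 + 8 * d ^ 3 := by rw [hK, hM, hw]; ring
  have b2 : 2 * (2 * (d * d)) * (d * w) + 2 * (d * d) * (2 * (d * d)) * d =
      8 * d ^ 5 + 4 * d ^ 3 := by rw [hw]; ring
  omega

end Pool.Agent.MP_dcfa1b_co

end

section

set_option autoImplicit false
open Polynomial Finset

namespace Pool.Agent.MP_dcfa1b_co

variable {F : Type*} [Field F] [Fintype F] [DecidableEq F]

/-- multiplicative form of the shift property -/
def Sid (φ : F → F) : Prop :=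
  (∀ x, x ≠ 0 → x ≠ 1 → φ x ≠ 0 ∧ φ x ≠ 1) ∧
  (∀ x y, x ≠ 0 → x ≠ 1 → y ≠ 0 → y ≠ 1 → φ x = φ y → x = y) ∧
  (∀ a x y, a ≠ 0 → a ≠ 1 → a ≠ -1 → x ≠ 0 → x ≠ 1 → y ≠ 0 → y ≠ 1 → a * x ≠ 1 → a * y ≠ 1 →
    φ (a * x) * φ y = φ (a * y) * φ x → x = y)

def UU (F : Type*) [Field F] [Fintype F] [DecidableEq F] : Finset F := (univ.erase 1).erase 0

lemma mem_UU (x : F) : x ∈ UU F ↔ x ≠ 0 ∧ x ≠ 1 := by simp [UU]

lemma sum_univ_UU (f : F → F) : ∑ x, f x = f 0 + f 1 + ∑ x ∈ UU F, f x := by
  rw [← add_sum_erase _ _ (mem_univ (1 : F)),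
    ← add_sum_erase _ _ (show (0 : F) ∈ univ.erase 1 by simp), UU]
  ring

lemma sum_UU_pow (k : ℕ) (hk : 1 ≤ k) (hk2 : k < Fintype.card F - 1) :
    ∑ y ∈ UU F, y ^ k = -1 := by
  have h1 := FiniteField.sum_pow_lt_card_sub_one F k hk2
  rw [sum_univ_UU (fun y => y ^ k), zero_pow (by omega), one_pow] at h1
  linear_combination h1

lemma image_UU (φ : F → F) (h : Sid φ) : (UU F).image φ = UU F := by
  apply eq_of_subset_of_card_le
  · intro y hy
    obtain ⟨x, hx, rfl⟩ := mem_image.1 hy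
    rw [mem_UU] at hx ⊢
    exact h.1 x hx.1 hx.2
  · rw [card_image_of_injOn]
    intro x hx y hy hxy
    rw [mem_coe, mem_UU] at hx hy
    exact h.2.1 x y hx.1 hx.2 hy.1 hy.2 hxy

lemma injOn_UU (φ : F → F) (h : Sid φ) : Set.InjOn φ (UU F) := by
  intro x hx y hy hxy
  rw [mem_coe, mem_UU] at hx hy
  exact h.2.1 x y hx.1 hx.2 hy.1 hy.2 hxy

lemma missing (φ : F → F) (h : Sid φ) (a : F) (ha0 : a ≠ 0) (ha1 : a ≠ 1) (ha2 : a ≠ -1) :
    ∃ g, g * φ a⁻¹ = (∏ y ∈ UU F, y) * φ a ∧ (∀ k, 1 ≤ k → k < Fintype.card F - 1 →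
      ∑ x ∈ (UU F).erase a⁻¹, (φ (a * x) * (φ x)⁻¹) ^ k = -1 - g ^ k) ∧ g ≠ 1 ∧
      ∀ x ∈ (UU F).erase a⁻¹, φ (a * x) * (φ x)⁻¹ ≠ g := by
  set r : F → F := fun x => φ (a * x) * (φ x)⁻¹ with hr
  have hmem : ∀ x ∈ (UU F).erase a⁻¹, x ≠ 0 ∧ x ≠ 1 ∧ a * x ≠ 0 ∧ a * x ≠ 1 := by
    intro x hx
    obtain ⟨b1, b2⟩ := mem_erase.1 hx
    rw [mem_UU] at b2
    refine ⟨b2.1, b2.2, mul_ne_zero ha0 b2.1, fun hh => b1 ?_⟩
    exact eq_inv_of_mul_eq_one_right hh
  have hai : a⁻¹ ∈ UU F := (mem_UU _).2 ⟨inv_ne_zero ha0, fun hh => ha1 (inv_eq_one.1 hh)⟩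
  have haU : a ∈ UU F := (mem_UU _).2 ⟨ha0, ha1⟩
  have hinj : Set.InjOn r ((UU F).erase a⁻¹) := by
    intro x hx y hy hxy
    obtain ⟨x0, x1, x2, x3⟩ := hmem x hx
    obtain ⟨y0, y1, y2, y3⟩ := hmem y hy
    apply h.2.2 a x y ha0 ha1 ha2 x0 x1 y0 y1 x3 y3
    have c1 := (h.1 x x0 x1).1
    have c2 := (h.1 y y0 y1).1
    simp only [hr] at hxy
    field_simp at hxy
    linear_combination hxy
  have hsub : ((UU F).erase a⁻¹).image r ⊆ UU F := by
    intro y hy
    obtain ⟨x, hx, rfl⟩ := mem_image.1 hy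
    obtain ⟨x0, x1, x2, x3⟩ := hmem x hx
    have c1 := (h.1 x x0 x1).1
    have c2 := (h.1 _ x2 x3).1
    rw [mem_UU]
    refine ⟨mul_ne_zero c2 (inv_ne_zero c1), fun hh => ha1 ?_⟩
    have c3 : φ (a * x) = φ x := by
      simp only [hr] at hh
      field_simp at hh
      exact hh
    have := h.2.1 _ _ x2 x3 x0 x1 c3
    exact mul_right_cancel₀ x0 (by rw [this, one_mul])
  obtain ⟨g, hg1, hg2⟩ := exists_eq_insert_iff.2 ⟨hsub, by
    rw [card_image_of_injOn hinj, card_erase_add_one hai]⟩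
  refine ⟨g, ?_, fun k hk hk2 => ?_, ?_, fun x hx hh => hg1 (mem_image.2 ⟨x, hx, hh⟩)⟩
  · have p1 : ∏ y ∈ UU F, y = g * ∏ x ∈ (UU F).erase a⁻¹, r x := by
      conv_lhs => rw [← hg2, prod_insert hg1, prod_image hinj]
    have p0 : ∏ x ∈ UU F, φ x = ∏ y ∈ UU F, y := by
      conv_rhs => rw [← image_UU φ h, prod_image (injOn_UU φ h)]
    have p2 : φ a⁻¹ * ∏ x ∈ (UU F).erase a⁻¹, φ x = ∏ y ∈ UU F, y := by
      rw [mul_prod_erase _ _ hai, p0]
    have p3 : φ a * ∏ x ∈ (UU F).erase a⁻¹, φ (a * x) = ∏ y ∈ UU F, y := by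
      rw [← p0, ← mul_prod_erase _ _ haU]
      congr 1
      refine prod_nbij' (fun x => a * x) (fun y => a⁻¹ * y) ?_ ?_ ?_ ?_ ?_
      · intro x hx
        obtain ⟨x0, x1, x2, x3⟩ := hmem x hx
        refine mem_erase.2 ⟨fun hh => x1 ?_, (mem_UU _).2 ⟨x2, x3⟩⟩
        exact mul_left_cancel₀ ha0 (by rw [hh, mul_one])
      · intro y hy
        obtain ⟨b1, b2⟩ := mem_erase.1 hy
        rw [mem_UU] at b2
        refine mem_erase.2 ⟨fun hh => b2.2 ?_, (mem_UU _).2 ⟨mul_ne_zero (inv_ne_zero ha0) b2.1,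
          fun hh => b1 ?_⟩⟩
        · exact mul_left_cancel₀ (inv_ne_zero ha0) (by rw [hh, mul_one])
        · field_simp at hh
          exact hh
      · intro x _; field_simp
      · intro x _; field_simp
      · intro x _; rfl
    have p4 : (∏ x ∈ (UU F).erase a⁻¹, r x) * ∏ x ∈ (UU F).erase a⁻¹, φ x =
        ∏ x ∈ (UU F).erase a⁻¹, φ (a * x) := by
      rw [← prod_mul_distrib]
      refine prod_congr rfl (fun x hx => ?_)
      obtain ⟨x0, x1, x2, x3⟩ := hmem x hx
      have c1 := (h.1 x x0 x1).1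
      simp only [hr]
      field_simp
    have p5 : (∏ y ∈ UU F, y) ≠ 0 := prod_ne_zero_iff.2 (fun y hy => ((mem_UU y).1 hy).1)
    set P := ∏ y ∈ UU F, y
    set R := ∏ x ∈ (UU F).erase a⁻¹, r x
    set A := ∏ x ∈ (UU F).erase a⁻¹, φ x
    set B := ∏ x ∈ (UU F).erase a⁻¹, φ (a * x)
    have hA : A ≠ 0 := by
      intro hh
      rw [hh, mul_zero] at p2
      exact p5 p2.symm
    have hR : R ≠ 0 := by
      intro hh
      rw [hh, mul_zero] at p1
      exact p5 p1
    apply mul_right_cancel₀ (mul_ne_zero hR hA)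
    linear_combination (g * R) * p2 - P * p1 - P * p3 - P * φ a * p4
  · have s1 := sum_UU_pow (F := F) k hk hk2
    rw [← hg2, sum_insert hg1, sum_image hinj] at s1
    linear_combination s1
  · have : g ∈ UU F := by rw [← hg2]; exact mem_insert_self _ _
    exact ((mem_UU g).1 this).2

omit [DecidableEq F] in
lemma sum_eval_zero (P : F[X]) (hP : P.natDegree < Fintype.card F - 1) : ∑ x, P.eval x = 0 := by
  simp only [eval_eq_sum_range]
  rw [sum_comm]
  refine sum_eq_zero (fun j hj => ?_)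
  have := mem_range.1 hj
  rw [← mul_sum, FiniteField.sum_pow_lt_card_sub_one F j (by omega), mul_zero]

lemma poly_id (P Q : F[X]) (N : ℕ) (hP : P.natDegree ≤ N) (hQ : Q.natDegree ≤ N)
    (hN : N + 3 < Fintype.card F)
    (h : ∀ a, a ≠ 0 → a ≠ 1 → a ≠ -1 → P.eval a = Q.eval a) : P = Q := by
  apply eq_of_natDegree_lt_card_of_eval_eq' P Q ((UU F).erase (-1))
  · intro a ha
    obtain ⟨b1, b2⟩ := mem_erase.1 ha
    rw [mem_UU] at b2
    exact h a b2.1 b2.2 b1
  · have a1 := pred_card_le_card_erase (s := UU F) (a := -1)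
    have a2 := pred_card_le_card_erase (s := univ.erase (1 : F)) (a := 0)
    have a3 := pred_card_le_card_erase (s := (univ : Finset F)) (a := 1)
    rw [card_univ] at a3
    unfold UU at a1 ⊢
    omega

omit [Fintype F] [DecidableEq F] in
lemma eval_rev (φ : F[X]) (a : F) (ha : a ≠ 0) :
    φ.reverse.eval a = a ^ φ.natDegree * φ.eval a⁻¹ := by
  letI : Invertible a⁻¹ := invertibleOfNonzero (inv_ne_zero ha)
  have := eval₂_reverse_mul_pow (RingHom.id F) a⁻¹ φ
  rw [invOf_eq_inv, inv_inv] at this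
  simp only [eval₂_id] at this
  rw [← this, mul_comm, mul_assoc, ← mul_pow, inv_mul_cancel₀ ha, one_pow, mul_one]

/-- the sum `∑_{x ∈ S} (φ(a x)/φ(x))^k` as a polynomial in `a` -/
noncomputable def Pk (φ : F[X]) (S : Finset F) (k : ℕ) : F[X] :=
  ∑ j ∈ range ((φ ^ k).natDegree + 1),
    monomial j ((φ ^ k).coeff j * ∑ x ∈ S, x ^ j * (φ.eval x)⁻¹ ^ k)

omit [Fintype F] [DecidableEq F] in
lemma Pk_eval (φ : F[X]) (S : Finset F) (k : ℕ) (a : F) :
    (Pk φ S k).eval a = ∑ x ∈ S, (φ.eval (a * x) * (φ.eval x)⁻¹) ^ k := by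
  simp only [Pk, eval_finset_sum, eval_monomial, mul_sum, sum_mul]
  rw [sum_comm]
  refine sum_congr rfl (fun x _ => ?_)
  rw [mul_pow, ← eval_pow, eval_eq_sum_range (p := φ ^ k), sum_mul]
  refine sum_congr rfl (fun j _ => ?_)
  rw [mul_pow]
  ring

omit [Fintype F] [DecidableEq F] in
lemma Pk_deg (φ : F[X]) (S : Finset F) (k : ℕ) : (Pk φ S k).natDegree ≤ k * φ.natDegree := by
  refine natDegree_sum_le_of_forall_le _ _ (fun j hj => (natDegree_monomial_le _).trans ?_)
  have := mem_range.1 hj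
  rw [natDegree_pow] at this
  omega

omit [Fintype F] [DecidableEq F] in
lemma Pk_coeff (φ : F[X]) (S : Finset F) (k j : ℕ) (hj : j ≤ k * φ.natDegree) :
    (Pk φ S k).coeff j = (φ ^ k).coeff j * ∑ x ∈ S, x ^ j * (φ.eval x)⁻¹ ^ k := by
  simp only [Pk, finset_sum_coeff, coeff_monomial, sum_ite_eq', mem_range, natDegree_pow]
  rw [if_pos (by omega)]

lemma card_UU : Fintype.card F - 2 ≤ (UU F).card := by
  have a2 := pred_card_le_card_erase (s := univ.erase (1 : F)) (a := 0)
  have a3 := pred_card_le_card_erase (s := (univ : Finset F)) (a := 1)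
  rw [card_univ] at a3
  unfold UU
  omega

lemma deg_pos (φ : F[X]) (h : Sid (fun x => φ.eval x)) (hq : 3 < Fintype.card F) :
    1 ≤ φ.natDegree := by
  by_contra hc
  have h1 := card_UU (F := F)
  obtain ⟨x, hx, y, hy, hxy⟩ := one_lt_card.1 (show 1 < (UU F).card by omega)
  apply hxy
  apply injOn_UU _ h hx hy
  rw [eq_C_of_natDegree_le_zero (p := φ) (by omega)]
  simp

lemma ends (φ : F[X]) (h : Sid (fun x => φ.eval x))
    (hd : 2 * φ.natDegree + 3 < Fintype.card F) :
    (φ.eval 0 = 0 ∧ φ.eval 1 = 1) ∨ (φ.eval 0 = 1 ∧ φ.eval 1 = 0) := by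
  have k1 : φ.eval 0 + φ.eval 1 = 1 := by
    have a1 := sum_eval_zero φ (by omega)
    rw [sum_univ_UU (fun x => φ.eval x)] at a1
    have a2 := sum_UU_pow (F := F) 1 le_rfl (by omega)
    rw [← image_UU _ h, sum_image (injOn_UU _ h)] at a2
    simp only [pow_one] at a2
    linear_combination a1 - a2
  by_cases hu : φ.eval 0 = 0
  · left; exact ⟨hu, by linear_combination k1 - hu⟩
  by_cases hv : φ.eval 1 = 0
  · right; exact ⟨by linear_combination k1 - hv, hv⟩
  exfalso
  have hφ0 : φ ≠ 0 := by rintro rfl; simp at hu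
  have hd1 := deg_pos φ h (by omega)
  set d := φ.natDegree with hdd
  set P := ∏ y ∈ UU F, y
  set v := φ.eval 1 with hvv
  have hrev := reverse_natDegree_le φ
  have key : Pk φ univ 1 * φ.reverse =
      C v⁻¹ * φ * φ.reverse + C v * X ^ d - C P * φ * X ^ d := by
    apply poly_id _ _ (2 * d) _ _ hd
    · intro a ha0 ha1 ha2
      obtain ⟨g, hg1, hg2, -⟩ := missing _ h a ha0 ha1 ha2
      have b1 := hg2 1 le_rfl (by omega)
      have hai : a⁻¹ ∈ UU F := (mem_UU _).2 ⟨inv_ne_zero ha0, fun hh => ha1 (inv_eq_one.1 hh)⟩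
      have b3 := ((mem_UU _).1 hai)
      have b4 := (h.1 _ b3.1 b3.2).1
      simp only [eval_mul, eval_add, eval_sub, eval_C, eval_pow, eval_X, Pk_eval,
        eval_rev φ a ha0]
      rw [sum_univ_UU, ← add_sum_erase _ _ hai, b1, mul_one, mul_zero, mul_inv_cancel₀ ha0,
        mul_inv_cancel₀ hu, ← hdd, ← hvv]
      simp only at b4 hg1
      have b5 := inv_mul_cancel₀ b4
      simp only [pow_one]
      linear_combination v * a ^ d * b5 - a ^ d * hg1
    · refine natDegree_mul_le.trans ?_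
      have := Pk_deg φ univ 1
      omega
    · have c1 : (C P * φ * X ^ d).natDegree ≤ 2 * d := by
        refine natDegree_mul_le.trans ?_
        have := natDegree_C_mul_le P φ
        rw [natDegree_X_pow]
        omega
      have c2 : (C v⁻¹ * φ * φ.reverse).natDegree ≤ 2 * d := by
        refine natDegree_mul_le.trans ?_
        have := natDegree_C_mul_le v⁻¹ φ
        omega
      refine (natDegree_sub_le _ _).trans (max_le ((natDegree_add_le _ _).trans (max_le c2 ?_)) c1)
      refine (natDegree_C_mul_le _ _).trans ?_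
      rw [natDegree_X_pow]; omega
  have e1 := congrArg (fun Q => eval 0 Q) key
  simp only [eval_mul, eval_add, eval_sub, eval_C, eval_pow, eval_X, Pk_eval, zero_mul,
    zero_pow (show d ≠ 0 by omega), mul_zero, pow_one, sub_zero, add_zero] at e1
  rw [← coeff_zero_eq_eval_zero φ.reverse, coeff_zero_reverse, sum_univ_UU, mul_inv_cancel₀ hu,
    ← mul_sum, ← hvv] at e1
  have e2 : ∑ x ∈ UU F, (φ.eval x)⁻¹ = -1 := by
    have a2 := sum_UU_pow (F := F) (Fintype.card F - 2) (by omega) (by omega)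
    rw [← image_UU _ h, sum_image (injOn_UU _ h)] at a2
    rw [← a2]
    refine sum_congr rfl (fun x hx => ?_)
    have b1 := (mem_UU x).1 hx
    have b2 := (h.1 x b1.1 b1.2).1
    have b3 := FiniteField.pow_card_sub_one_eq_one _ b2
    rw [show Fintype.card F - 1 = (Fintype.card F - 2) + 1 by omega, pow_succ] at b3
    exact (eq_inv_of_mul_eq_one_left b3).symm
  rw [e2] at e1
  have e3 : v * φ.leadingCoeff = 0 := by linear_combination e1 + φ.leadingCoeff * k1
  exact mul_ne_zero hv (leadingCoeff_ne_zero.2 hφ0) e3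

lemma not_fix (φ : F[X]) (h : Sid (fun x => φ.eval x))
    (hd : 2 * φ.natDegree + 3 < Fintype.card F) (h0 : φ.eval 0 = 0) (h1 : φ.eval 1 = 1) :
    False := by
  have hφ0 : φ ≠ 0 := by rintro rfl; simp at h1
  have hd1 : 1 ≤ φ.natDegree := by
    by_contra hc
    rw [eq_C_of_natDegree_le_zero (p := φ) (by omega)] at h0 h1
    simp only [eval_C] at h0 h1
    rw [h0] at h1
    exact zero_ne_one h1
  set d := φ.natDegree with hdd
  set P := ∏ y ∈ UU F, y
  have hrev := reverse_natDegree_le φ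
  have key : Pk φ (univ.erase 0) 1 * φ.reverse =
      -φ.reverse - C P * φ * X ^ d + φ * φ.reverse + X ^ d := by
    apply poly_id _ _ (2 * d) _ _ hd
    · intro a ha0 ha1 ha2
      obtain ⟨g, hg1, hg2, -⟩ := missing _ h a ha0 ha1 ha2
      have b1 := hg2 1 le_rfl (by omega)
      have hai : a⁻¹ ∈ UU F := (mem_UU _).2 ⟨inv_ne_zero ha0, fun hh => ha1 (inv_eq_one.1 hh)⟩
      have b2 : univ.erase (0 : F) = insert 1 (UU F) := by
        ext x
        simp only [mem_erase, mem_univ, and_true, mem_insert, mem_UU]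
        by_cases hx : x = 1
        · simp [hx]
        · simp [hx]
      have b3 := ((mem_UU _).1 hai)
      have b4 := (h.1 _ b3.1 b3.2).1
      simp only [eval_mul, eval_add, eval_sub, eval_neg, eval_C, eval_pow, eval_X, Pk_eval,
        eval_rev φ a ha0]
      rw [b2, sum_insert (by simp [mem_UU]), ← add_sum_erase _ _ hai, b1, mul_one,
        mul_inv_cancel₀ ha0, h1, ← hdd]
      simp only at b4 hg1
      have b5 := inv_mul_cancel₀ b4
      simp only [pow_one, inv_one, mul_one, one_mul]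
      linear_combination a ^ d * b5 - a ^ d * hg1
    · refine natDegree_mul_le.trans ?_
      have := Pk_deg φ (univ.erase 0) 1
      omega
    · have c1 : (C P * φ * X ^ d).natDegree ≤ 2 * d := by
        refine natDegree_mul_le.trans ?_
        have := natDegree_C_mul_le P φ
        rw [natDegree_X_pow]
        omega
      have c2 : (φ * φ.reverse).natDegree ≤ 2 * d := natDegree_mul_le.trans (by omega)
      refine (natDegree_add_le _ _).trans (max_le ((natDegree_add_le _ _).trans (max_le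
        ((natDegree_sub_le _ _).trans (max_le ?_ c1)) c2)) ?_)
      · rw [natDegree_neg]; omega
      · rw [natDegree_X_pow]; omega
  have e1 := congrArg (fun Q => eval 0 Q) key
  simp only [eval_mul, eval_add, eval_sub, eval_neg, eval_C, eval_pow, eval_X, Pk_eval, zero_mul,
    h0, zero_pow (show d ≠ 0 by omega), mul_zero, pow_one, sum_const_zero, sub_zero, add_zero] at e1
  rw [← coeff_zero_eq_eval_zero, coeff_zero_reverse] at e1
  exact hφ0 (leadingCoeff_eq_zero.1 (neg_eq_zero.1 e1.symm))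

lemma Pk_ident (φ : F[X]) (h : Sid (fun x => φ.eval x)) (h0 : φ.eval 0 = 1) (h1 : φ.eval 1 = 0)
    (k : ℕ) (hk : 1 ≤ k) (hd1 : 1 ≤ φ.natDegree)
    (hd : 2 * φ.natDegree * k + 3 < Fintype.card F) :
    Pk φ (univ.erase 1) k * φ.reverse ^ k =
      X ^ (φ.natDegree * k) * (-(C (∏ y ∈ UU F, y) * φ) ^ k) := by
  set d := φ.natDegree with hdd
  set P := ∏ y ∈ UU F, y
  have hrev := reverse_natDegree_le φ
  have e0 : 2 * d * k = 2 * (d * k) := by ring
  have e1 : k * d = d * k := by ring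
  have e2 : k ≤ d * k := Nat.le_mul_of_pos_left _ hd1
  apply poly_id _ _ (2 * d * k) _ _ hd
  · intro a ha0 ha1 ha2
    obtain ⟨g, hg1, hg2, -⟩ := missing _ h a ha0 ha1 ha2
    have b1 := hg2 k hk (by omega)
    have hai : a⁻¹ ∈ UU F := (mem_UU _).2 ⟨inv_ne_zero ha0, fun hh => ha1 (inv_eq_one.1 hh)⟩
    simp only [eval_mul, eval_neg, eval_C, eval_pow, eval_X, Pk_eval, eval_rev φ a ha0]
    rw [← add_sum_erase _ _ (show (0 : F) ∈ univ.erase 1 by simp)]
    change (_ + ∑ x ∈ UU F, _) * _ = _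
    rw [← add_sum_erase _ _ hai, b1, mul_zero, mul_inv_cancel₀ ha0, h0, h1, ← hdd]
    rw [← hg1]
    simp only [inv_one, mul_one, one_pow, zero_mul, zero_pow (show k ≠ 0 by omega), mul_pow, pow_mul]
    ring
  · refine natDegree_mul_le.trans ?_
    have := Pk_deg φ (univ.erase 1) k
    rw [← hdd] at this
    have : (φ.reverse ^ k).natDegree ≤ k * d := natDegree_pow_le.trans (Nat.mul_le_mul_left _ hrev)
    omega
  · refine natDegree_mul_le.trans ?_
    rw [natDegree_X_pow, natDegree_neg]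
    have : ((C P * φ) ^ k).natDegree ≤ k * d :=
      natDegree_pow_le.trans (Nat.mul_le_mul_left _ (natDegree_C_mul_le _ _))
    omega

lemma vanish (φ : F[X]) (h : Sid (fun x => φ.eval x)) (h0 : φ.eval 0 = 1) (h1 : φ.eval 1 = 0)
    (hd1 : 1 ≤ φ.natDegree) (k : ℕ) (hk : 1 ≤ k)
    (hd : 2 * φ.natDegree * k + 3 < Fintype.card F) (j : ℕ) (hj : j < φ.natDegree * k) :
    (φ ^ k).coeff j * lam φ j k = 0 := by
  have hφ0 : φ ≠ 0 := by rintro rfl; simp at hd1
  have key := Pk_ident φ h h0 h1 k hk hd1 hd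
  have cop : IsCoprime ((X : F[X]) ^ (φ.natDegree * k)) (φ.reverse ^ k) := by
    apply IsCoprime.pow
    rw [irreducible_X.coprime_iff_not_dvd, X_dvd_iff, coeff_zero_reverse]
    exact leadingCoeff_ne_zero.2 hφ0
  have hdv : (X : F[X]) ^ (φ.natDegree * k) ∣ Pk φ (univ.erase 1) k :=
    cop.dvd_of_dvd_mul_right ⟨_, key⟩
  have := X_pow_dvd_iff.1 hdv j hj
  rw [Pk_coeff _ _ _ _ (by rw [mul_comm]; omega)] at this
  exact this

/-- normal form: `φ(0) = 1`, `φ(1) = 0` -/
lemma normal (φ : F[X]) (h : Sid (fun x => φ.eval x))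
    (hd : 2 * φ.natDegree + 3 < Fintype.card F) : φ.eval 0 = 1 ∧ φ.eval 1 = 0 :=
  (ends φ h hd).resolve_left (fun hh => not_fix φ h hd hh.1 hh.2)

lemma prod_UU : ∏ y ∈ UU F, y = -1 := by
  have h1 := FiniteField.prod_univ_units_id_eq_neg_one (K := F)
  have h2 := congrArg (Units.coeHom F) h1
  rw [map_prod] at h2
  simp only [Units.coeHom_apply, Units.val_neg, Units.val_one] at h2
  have h3 : ∏ x : Fˣ, (x : F) = ∏ y ∈ univ.erase (0 : F), y := by
    refine prod_bij (fun x _ => (x : F)) ?_ ?_ ?_ ?_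
    · intro x _; simp
    · intro x _ y _ hxy; exact Units.ext hxy
    · intro y hy; exact ⟨Units.mk0 y (mem_erase.1 hy).1, mem_univ _, rfl⟩
    · intro x _; rfl
  rw [h3, ← mul_prod_erase _ _ (show (1 : F) ∈ univ.erase 0 by simp), one_mul,
    erase_right_comm] at h2
  exact h2

lemma anti (φ : F[X]) (h : Sid (fun x => φ.eval x))
    (hd : 2 * φ.natDegree + 3 < Fintype.card F) (a : F) (ha : a ≠ 0) :
    φ.eval a = -(a ^ φ.natDegree * φ.eval a⁻¹) := by
  obtain ⟨h0, h1⟩ := normal φ h hd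
  have hd1 := deg_pos φ h (by omega)
  have hφ0 : φ ≠ 0 := by rintro rfl; simp at hd1
  have key := Pk_ident φ h h0 h1 1 le_rfl hd1 (by omega)
  rw [prod_UU, mul_one, pow_one, pow_one] at key
  have cop : IsCoprime ((X : F[X]) ^ φ.natDegree) φ.reverse := by
    apply IsCoprime.pow_left
    rw [irreducible_X.coprime_iff_not_dvd, X_dvd_iff, coeff_zero_reverse]
    exact leadingCoeff_ne_zero.2 hφ0
  obtain ⟨Q, hQ⟩ : (X : F[X]) ^ φ.natDegree ∣ Pk φ (univ.erase 1) 1 :=
    cop.dvd_of_dvd_mul_right ⟨_, key⟩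
  rw [hQ, mul_assoc] at key
  have k2 := mul_left_cancel₀ (pow_ne_zero _ X_ne_zero) key
  have hQ0 : Q ≠ 0 := by
    rintro rfl
    rw [zero_mul] at k2
    have := congrArg (fun Q => eval 0 Q) k2
    simp [h0] at this
  have hQd : Q.natDegree ≤ 0 := by
    have := Pk_deg φ (univ.erase 1) 1
    rw [hQ, natDegree_mul (pow_ne_zero _ X_ne_zero) hQ0, natDegree_X_pow] at this
    omega
  rw [eq_C_of_natDegree_le_zero hQd] at k2
  set c := Q.coeff 0
  have k3 : ∀ b : F, b ≠ 0 → φ.eval b = c * (b ^ φ.natDegree * φ.eval b⁻¹) := by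
    intro b hb
    have := congrArg (fun Q => eval b Q) k2
    simp only [eval_mul, eval_C, eval_neg, eval_rev φ b hb] at this
    linear_combination -this
  have hne : ∀ x : F, x ≠ 1 → φ.eval x ≠ 0 := by
    intro x hx
    by_cases hx0 : x = 0
    · rw [hx0, h0]; exact one_ne_zero
    · exact (h.1 x hx0 hx).1
  have hc2 : c * c = 1 := by
    have h3 := card_UU (F := F)
    obtain ⟨x, hx⟩ := card_pos.1 (show 0 < (UU F).card by omega)
    obtain ⟨x0, x1⟩ := (mem_UU x).1 hx
    have b1 := k3 x x0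
    have b2 := k3 x⁻¹ (inv_ne_zero x0)
    rw [inv_inv] at b2
    have b3 : x ^ φ.natDegree * x⁻¹ ^ φ.natDegree = 1 := by
      rw [← mul_pow, mul_inv_cancel₀ x0, one_pow]
    apply mul_right_cancel₀ (hne x x1)
    linear_combination -b1 - c * x ^ φ.natDegree * b2 - c * c * φ.eval x * b3
  by_cases hc : c = -1
  · rw [k3 a ha, hc]; ring
  exfalso
  have hc1 : c = 1 := (mul_self_eq_one_iff.1 hc2).resolve_right hc
  have hm : (-1 : F) ≠ 1 := fun hh => hc (by rw [hc1, hh])
  have hev : (-1 : F) ^ φ.natDegree = 1 := by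
    have b1 := k3 (-1) (by simp)
    rw [hc1, inv_neg, inv_one] at b1
    apply mul_right_cancel₀ (hne _ hm)
    linear_combination -b1
  have hd2 : 2 ≤ φ.natDegree := by
    by_contra hh
    rw [show φ.natDegree = 1 by omega, pow_one] at hev
    exact hm hev
  obtain ⟨x, x0, x4⟩ : ∃ x : F, x ≠ 0 ∧ x ^ 4 ≠ 1 := by
    by_contra hh
    push Not at hh
    have b1 : (X ^ 4 - 1 : F[X]) = 0 := by
      apply eq_zero_of_natDegree_lt_card_of_eval_eq_zero' _ (univ.erase 0)
      · intro x hx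
        simp [hh x (mem_erase.1 hx).1]
      · rw [← C_1, natDegree_X_pow_sub_C, card_erase_of_mem (mem_univ _), card_univ]
        omega
    have := congrArg (fun Q => eval 0 Q) b1
    simp at this
  have e1 : x ^ 2 * x⁻¹ = x := by field_simp
  have e2 : x ^ 2 * (-x)⁻¹ = -x := by field_simp
  have x1 : x ≠ 1 := by rintro rfl; simp at x4
  have x2 : -x ≠ 1 := by
    intro hh
    apply x4
    rw [show x ^ 4 = (-x) ^ 4 by ring, hh, one_pow]
  have := h.2.2 (x ^ 2) x⁻¹ (-x)⁻¹ (pow_ne_zero _ x0)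
    (fun hh => x4 (by rw [show x ^ 4 = (x ^ 2) ^ 2 by ring, hh]; ring))
    (fun hh => x4 (by rw [show x ^ 4 = (x ^ 2) ^ 2 by ring, hh]; ring))
    (inv_ne_zero x0) (fun hh => x1 (inv_eq_one.1 hh)) (inv_ne_zero (neg_ne_zero.2 x0))
    (fun hh => x2 (inv_eq_one.1 hh)) (by rw [e1]; exact x1) (by rw [e2]; exact x2)
    (by
      simp only [e1, e2]
      rw [k3 x x0, k3 (-x) (neg_ne_zero.2 x0), neg_pow x, hev]
      ring)
  have b5 := inv_injective this
  apply hm
  apply mul_right_cancel₀ x0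
  linear_combination -b5

/-- the third direction: `x ↦ x^d / φ(x)` is injective, and `a ↦ a^d` has trivial kernel -/
lemma third (φ : F[X]) (h : Sid (fun x => φ.eval x))
    (hd : 2 * φ.natDegree + 3 < Fintype.card F) :
    (∀ a : F, a ^ φ.natDegree = 1 → a = 1) ∧
    ∀ x y : F, x ≠ 0 → x ≠ 1 → y ≠ 0 → y ≠ 1 →
      x ^ φ.natDegree * φ.eval y = y ^ φ.natDegree * φ.eval x → x = y := by
  have hd1 := deg_pos φ h (by omega)
  have hg : ∀ a : F, a ≠ 0 → a ≠ 1 → a ≠ -1 → a ^ φ.natDegree ≠ 1 ∧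
      ∀ x ∈ (UU F).erase a⁻¹, φ.eval (a * x) * (φ.eval x)⁻¹ ≠ a ^ φ.natDegree := by
    intro a ha0 ha1 ha2
    obtain ⟨g, hg1, -, hg3, hg4⟩ := missing _ h a ha0 ha1 ha2
    have b4 := (h.1 _ (inv_ne_zero ha0) (fun hh => ha1 (inv_eq_one.1 hh))).1
    have : g = a ^ φ.natDegree := by
      apply mul_right_cancel₀ b4
      simp only at hg1 ⊢
      rw [hg1, prod_UU, anti φ h hd a ha0]
      ring
    rw [← this]
    exact ⟨hg3, hg4⟩
  have hodd : (-1 : F) ≠ 1 → (-1 : F) ^ φ.natDegree = -1 := by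
    intro hm
    have b1 := anti φ h hd (-1) (by simp)
    rw [inv_neg, inv_one] at b1
    apply mul_right_cancel₀ (h.1 (-1) (by simp) hm).1
    simp only
    linear_combination b1
  constructor
  · intro a ha
    by_contra ha1
    have ha0 : a ≠ 0 := by
      rintro rfl
      rw [zero_pow (by omega)] at ha
      exact zero_ne_one ha
    by_cases ha2 : a = -1
    · subst ha2
      exact ha1 ((hodd ha1).symm.trans ha)
    · exact (hg a ha0 ha1 ha2).1 ha
  · intro x y x0 x1 y0 y1 hxy
    by_contra hne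
    have cx := (h.1 x x0 x1).1
    have cy := (h.1 y y0 y1).1
    simp only at cx cy
    have ha0 : x / y ≠ 0 := div_ne_zero x0 y0
    have ha1 : x / y ≠ 1 := fun hh => hne ((div_eq_one_iff_eq y0).1 hh)
    have e1 : x / y * y = x := div_mul_cancel₀ _ y0
    by_cases ha2 : x / y = -1
    · have hm : (-1 : F) ≠ 1 := ha2 ▸ ha1
      have e2 : x = -y := by rw [← e1, ha2]; ring
      have b1 := anti φ h hd x x0
      have b2 := anti φ h hd y y0
      have b3 : x ^ φ.natDegree = -y ^ φ.natDegree := by rw [e2, neg_pow, hodd hm]; ring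
      have b4 : φ.eval x⁻¹ = φ.eval y⁻¹ := by
        apply mul_left_cancel₀ (mul_ne_zero (pow_ne_zero φ.natDegree x0) (pow_ne_zero φ.natDegree y0))
        linear_combination y ^ φ.natDegree * b1 - x ^ φ.natDegree * b2 + hxy
      exact hne (inv_injective (h.2.1 _ _ (inv_ne_zero x0) (fun hh => x1 (inv_eq_one.1 hh))
        (inv_ne_zero y0) (fun hh => y1 (inv_eq_one.1 hh)) b4))
    · apply (hg _ ha0 ha1 ha2).2 y
      · refine mem_erase.2 ⟨fun hh => x1 ?_, (mem_UU y).2 ⟨y0, y1⟩⟩
        rw [← e1]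
        nth_rewrite 2 [hh]
        exact mul_inv_cancel₀ ha0
      · rw [e1, div_pow]
        field_simp
        linear_combination -hxy

end Pool.Agent.MP_dcfa1b_co

end

section

set_option autoImplicit false
open Polynomial Finset

namespace Pool.Agent.MP_dcfa1b_co

lemma mod_two (N x : ℕ) (hx : x < 2 * N) : (x % N = x ∧ x < N) ∨ (x % N + N = x ∧ N ≤ x) := by
  by_cases h : x < N
  · left; exact ⟨Nat.mod_eq_of_lt h, h⟩
  · right
    refine ⟨?_, by omega⟩
    rw [Nat.mod_eq_sub_mod (by omega), Nat.mod_eq_of_lt (by omega)]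
    omega

lemma shift (N i j k l : ℕ) (hi : i < N) (hj : j < N) (hk : k < N) (hl : l < N)
    (h : i + l ≡ k + j [MOD N]) (hne : ¬ (l = i ∧ k = j)) :
    ∃ s : ℕ, (((i + s) % N : ℕ) : ℤ) - (((j + s) % N : ℕ) : ℤ) =
      (((k + s) % N : ℕ) : ℤ) - (((l + s) % N : ℕ) : ℤ) := by
  have h1 := mod_two N (i + l) (by omega)
  have h2 := mod_two N (k + j) (by omega)
  unfold Nat.ModEq at h
  have key : ∀ y, y ≤ N → (i + l = k + j ∧ y = N ∨
      (i + l = k + j + N ∧ ((j < y ∧ y ≤ i ∧ (y ≤ k ∨ l < y)) ∨ (k < y ∧ y ≤ l ∧ (y ≤ j ∨ i < y)))) ∨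
      (i + l + N = k + j ∧ ((i < y ∧ y ≤ j ∧ (y ≤ l ∨ k < y)) ∨ (l < y ∧ y ≤ k ∧ (y ≤ i ∨ j < y))))) →
      ∃ s : ℕ, (((i + s) % N : ℕ) : ℤ) - (((j + s) % N : ℕ) : ℤ) =
        (((k + s) % N : ℕ) : ℤ) - (((l + s) % N : ℕ) : ℤ) := by
    intro y hy hc
    refine ⟨N - y, ?_⟩
    have a1 := mod_two N (i + (N - y)) (by omega)
    have a2 := mod_two N (j + (N - y)) (by omega)
    have a3 := mod_two N (k + (N - y)) (by omega)
    have a4 := mod_two N (l + (N - y)) (by omega)
    generalize (i + (N - y)) % N = b1 at *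
    generalize (j + (N - y)) % N = b2 at *
    generalize (k + (N - y)) % N = b3 at *
    generalize (l + (N - y)) % N = b4 at *
    clear h h1 h2 hne
    rcases hc with hc | ⟨hc, hc2 | hc2⟩ | ⟨hc, hc2 | hc2⟩ <;> omega
  have h3 : i + l = k + j ∨ i + l = k + j + N ∨ i + l + N = k + j := by omega
  clear h h1 h2
  rcases h3 with h3 | h3 | h3
  · exact key N le_rfl (Or.inl ⟨h3, rfl⟩)
  · rcases lt_trichotomy i l with c | c | c
    · exact key l (by omega) (Or.inr (Or.inl ⟨h3, by omega⟩))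
    · rcases lt_trichotomy j k with c' | c' | c'
      · exact key k (by omega) (Or.inr (Or.inl ⟨h3, by omega⟩))
      · omega
      · exact key j (by omega) (Or.inr (Or.inl ⟨h3, by omega⟩))
    · exact key i (by omega) (Or.inr (Or.inl ⟨h3, by omega⟩))
  · rcases lt_trichotomy j k with c | c | c
    · exact key k (by omega) (Or.inr (Or.inr ⟨h3, by omega⟩))
    · rcases lt_trichotomy i l with c' | c' | c'
      · exact key l (by omega) (Or.inr (Or.inr ⟨h3, by omega⟩))
      · omega
      · exact key i (by omega) (Or.inr (Or.inr ⟨h3, by omega⟩))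
    · exact key j (by omega) (Or.inr (Or.inr ⟨h3, by omega⟩))

variable {F : Type*} [Field F] [Fintype F] [DecidableEq F]

lemma exists_log (n : ℕ) (hq : Fintype.card F = n + 2) (α : F) (hα : orderOf α = n + 1)
    (x : F) (x0 : x ≠ 0) (x1 : x ≠ 1) : ∃ i : Fin n, α ^ ((i : ℕ) + 1) = x := by
  have hα0 : α ≠ 0 := by
    rintro rfl
    have := pow_orderOf_eq_one (0 : F)
    rw [hα] at this
    simp at this
  have h1 : (range (n + 1)).image (fun m => α ^ m) = univ.erase 0 := by
    apply eq_of_subset_of_card_le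
    · intro y hy
      obtain ⟨m, -, rfl⟩ := mem_image.1 hy
      simp [hα0]
    · rw [card_image_of_injOn, card_erase_of_mem (mem_univ _), card_univ, card_range]
      · omega
      · intro a ha b hb hab
        apply pow_injOn_Iio_orderOf (x := α) _ _ hab
        · simpa [hα] using ha
        · simpa [hα] using hb
  have h2 : x ∈ (range (n + 1)).image (fun m => α ^ m) := by rw [h1]; simp [x0]
  obtain ⟨m, hm, rfl⟩ := mem_image.1 h2
  have hm' := mem_range.1 hm
  rcases m with _ | m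
  · simp at x1
  · exact ⟨⟨m, by omega⟩, rfl⟩

lemma sid_of_shift (n : ℕ) (f : Equiv.Perm (Fin n))
    (hS : ∀ s t : ℕ, ∀ i j k l : Fin n, i ≠ j → k ≠ l →
        (((((i : ℕ) + 1 + s) % (n + 1) : ℕ) : ℤ) - ((((j : ℕ) + 1 + s) % (n + 1) : ℕ) : ℤ)
            = ((((k : ℕ) + 1 + s) % (n + 1) : ℕ) : ℤ) - ((((l : ℕ) + 1 + s) % (n + 1) : ℕ) : ℤ) ∧
         ((((f i : ℕ) + 1 + t) % (n + 1) : ℕ) : ℤ) - ((((f j : ℕ) + 1 + t) % (n + 1) : ℕ) : ℤ)
            = ((((f k : ℕ) + 1 + t) % (n + 1) : ℕ) : ℤ) - ((((f l : ℕ) + 1 + t) % (n + 1) : ℕ) : ℤ)) →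
        i = k ∧ j = l)
    (hq : Fintype.card F = n + 2) (α β : F) (hα : orderOf α = n + 1) (hβ : orderOf β = n + 1)
    (φ : F → F) (hφ : ∀ i : Fin n, φ (α ^ ((i : ℕ) + 1)) = β ^ ((f i : ℕ) + 1)) : Sid φ := by
  have fα : IsOfFinOrder α := orderOf_pos_iff.1 (by omega)
  have fβ : IsOfFinOrder β := orderOf_pos_iff.1 (by omega)
  have hβ0 : β ≠ 0 := fβ.isUnit.ne_zero
  refine ⟨fun x x0 x1 => ?_, fun x y x0 x1 y0 y1 hxy => ?_,
    fun a x y a0 a1 a2 x0 x1 y0 y1 ax ay h => ?_⟩
  · obtain ⟨i, rfl⟩ := exists_log n hq α hα x x0 x1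
    rw [hφ]
    refine ⟨pow_ne_zero _ hβ0, fun hh => ?_⟩
    have := Nat.le_of_dvd (by omega) (orderOf_dvd_of_pow_eq_one hh)
    have := (f i).2
    omega
  · obtain ⟨i, rfl⟩ := exists_log n hq α hα x x0 x1
    obtain ⟨j, rfl⟩ := exists_log n hq α hα y y0 y1
    rw [hφ, hφ] at hxy
    have a1 := (f i).2
    have a2 := (f j).2
    have := pow_injOn_Iio_orderOf (x := β) (by simp only [Set.mem_Iio]; omega)
      (by simp only [Set.mem_Iio]; omega) hxy
    have : f i = f j := Fin.ext (by omega)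
    rw [f.injective this]
  · obtain ⟨j, hj⟩ := exists_log n hq α hα x x0 x1
    obtain ⟨l, hl⟩ := exists_log n hq α hα y y0 y1
    obtain ⟨i, hi⟩ := exists_log n hq α hα (a * x) (mul_ne_zero a0 x0) ax
    obtain ⟨k, hk⟩ := exists_log n hq α hα (a * y) (mul_ne_zero a0 y0) ay
    have hij : i ≠ j := by
      rintro rfl
      exact a1 (mul_right_cancel₀ x0 (by rw [← hi, hj, one_mul]))
    have hkl : k ≠ l := by
      rintro rfl
      exact a1 (mul_right_cancel₀ y0 (by rw [← hk, hl, one_mul]))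
    have hex : ¬ (l = i ∧ k = j) := by
      rintro ⟨rfl, rfl⟩
      have b1 : a * a = 1 := by
        apply mul_right_cancel₀ x0
        rw [mul_assoc, ← hi, hl, ← hk, hj, one_mul]
      rcases mul_self_eq_one_iff.1 b1 with b | b
      · exact a1 b
      · exact a2 b
    have m1 : ((i : ℕ) + 1) + ((l : ℕ) + 1) ≡ ((k : ℕ) + 1) + ((j : ℕ) + 1) [MOD n + 1] := by
      rw [← hα, ← fα.pow_eq_pow_iff_modEq, pow_add α (i + 1), pow_add α (k + 1), hi, hl, hk, hj]
      ring
    have m2 : ((f i : ℕ) + 1) + ((f l : ℕ) + 1) ≡ ((f k : ℕ) + 1) + ((f j : ℕ) + 1) [MOD n + 1] := by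
      rw [← hβ, ← fβ.pow_eq_pow_iff_modEq, pow_add β (f i + 1), pow_add β (f k + 1), ← hφ, ← hφ,
        ← hφ, ← hφ, hi, hl, hk, hj]
      exact h
    obtain ⟨s, hs⟩ := shift (n + 1) _ _ _ _ (by omega) (by omega) (by omega) (by omega) m1
      (fun hh => hex ⟨Fin.ext (by omega), Fin.ext (by omega)⟩)
    obtain ⟨t, ht⟩ := shift (n + 1) _ _ _ _ (by omega) (by omega) (by omega) (by omega) m2
      (fun hh => hex ⟨f.injective (Fin.ext (by omega)), f.injective (Fin.ext (by omega))⟩)
    have := (hS s t i j k l hij hkl ⟨hs, ht⟩).2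
    rw [← hj, ← hl, this]

lemma inj_all (φ : F[X]) (h : Sid (fun x => φ.eval x)) (h0 : φ.eval 0 = 1) (h1 : φ.eval 1 = 0) :
    Function.Injective (fun x => φ.eval x) := by
  intro x y hxy
  simp only at hxy
  by_cases x0 : x = 0 <;> by_cases x1 : x = 1 <;> by_cases y0 : y = 0 <;> by_cases y1 : y = 1 <;>
    first
    | exact h.2.1 x y x0 x1 y0 y1 hxy
    | (have := h.1 y y0 y1; simp_all)
    | (have := h.1 x x0 x1; simp_all)
    | simp_all

lemma golomb (n : ℕ) (f : Equiv.Perm (Fin n)) (β : F) (hβ : orderOf β = n + 1)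
    (hsid : ∀ (α : F) (φ : F → F), orderOf α = n + 1 →
      (∀ i : Fin n, φ (α ^ ((i : ℕ) + 1)) = β ^ ((f i : ℕ) + 1)) → Sid φ) (d : ℕ) :
    ∀ (α : F) (φ : F[X]), φ.natDegree = d → orderOf α = n + 1 → 16 * d ^ 6 + 3 < ringChar F →
      (∀ i : Fin n, φ.eval (α ^ ((i : ℕ) + 1)) = β ^ ((f i : ℕ) + 1)) →
      ∃ α' β' : F, orderOf α' = n + 1 ∧ orderOf β' = n + 1 ∧
        ∀ i : Fin n, α' ^ ((i : ℕ) + 1) + β' ^ ((f i : ℕ) + 1) = 1 := by
  induction d using Nat.strong_induction_on with
  | _ d ih =>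
  intro α φ hd hα hbig hφ
  have h := hsid α (fun x => φ.eval x) hα hφ
  obtain ⟨m, hp, hm⟩ := FiniteField.card F (ringChar F)
  have hpq : ringChar F ≤ Fintype.card F := by
    rw [hm]
    exact Nat.le_self_pow m.ne_zero _
  have hd6 : d ≤ d ^ 6 := Nat.le_self_pow (by omega) d
  obtain ⟨h0, h1⟩ := normal φ h (by omega)
  have hd1 := deg_pos φ h (by omega)
  have hinj := inj_all φ h h0 h1
  by_cases hno : ∃ o, 1 < o ∧ ∀ i, φ.coeff i ≠ 0 → o ∣ i
  · obtain ⟨o, ho, hdiv⟩ := hno
    have e1 : expand F o (contract o φ) = φ := by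
      ext i
      rw [coeff_expand (by omega), coeff_contract (by omega)]
      split_ifs with hi
      · rw [Nat.div_mul_cancel hi]
      · by_contra hh
        exact hi (hdiv i (fun h => hh h.symm))
    have e2 : (contract o φ).natDegree * o = d := by rw [← natDegree_expand, e1, hd]
    have e3 : (contract o φ).natDegree < d := by
      rw [← e2]
      apply lt_mul_of_one_lt_right _ ho
      apply Nat.pos_of_ne_zero
      intro hh
      rw [hh] at e2
      omega
    have e4 : ∀ x : F, φ.eval x = (contract o φ).eval (x ^ o) := by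
      intro x
      rw [← expand_eval, e1]
    refine ih _ e3 (α ^ o) (contract o φ) rfl ?_ ?_ ?_
    · rw [← hα, orderOf_eq_orderOf_iff]
      intro k
      constructor
      · intro hk
        apply hinj
        simp only [e4]
        rw [pow_right_comm, hk, one_pow]
      · intro hk
        rw [pow_right_comm, hk, one_pow]
    · have := Nat.pow_le_pow_left e3.le 6
      omega
    · intro i
      rw [← hφ, e4, pow_right_comm]
  · have hne : ∀ x : F, x ≠ 1 → φ.eval x ≠ 0 := fun x hx hh => hx (hinj (hh.trans h1.symm))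
    have hc := core φ d (ringChar F) hp hd (by omega) (by rw [coeff_zero_eq_eval_zero, h0]) h1 hne
      hbig (fun k hk hk2 j hj => vanish φ h h0 h1 hd1 k hk (by rw [hd]; exact hk2) j
        (by rw [hd]; exact hj)) hno
    obtain ⟨e, -, u, hu⟩ := (dvd_prime_pow (prime_X_sub_C (1 : F)) _).1 hc
    obtain ⟨c, hc1, hc2⟩ := Polynomial.isUnit_iff.1 u.isUnit
    have e5 : ∀ x : F, φ.eval x = (1 - x) ^ e := by
      intro x
      have b1 := congrArg (fun Q => eval x Q) hu
      have b2 := congrArg (fun Q => eval 0 Q) hu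
      simp only [← hc2, eval_mul, eval_C, eval_pow, eval_sub, eval_X, h0, one_mul] at b1 b2
      apply mul_right_cancel₀ hc1.ne_zero
      rw [b1, b2, ← mul_pow]
      congr 1
      ring
    have hpe : Function.Injective (fun x : F => x ^ e) := by
      intro x y hxy
      have : (1 - x) = (1 - y) := by
        apply hinj
        simp only [e5, sub_sub_cancel]
        exact hxy
      linear_combination -this
    obtain ⟨β', hβ'⟩ := (Finite.injective_iff_surjective.1 hpe) β
    simp only at hβ'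
    refine ⟨α, β', hα, ?_, fun i => ?_⟩
    · rw [← hβ, orderOf_eq_orderOf_iff]
      intro k
      constructor
      · intro hk
        rw [← hβ', pow_right_comm, hk, one_pow]
      · intro hk
        apply hpe
        simp only
        rw [pow_right_comm, hβ', hk, one_pow]
    · have : 1 - α ^ ((i : ℕ) + 1) = β' ^ ((f i : ℕ) + 1) := by
        apply hpe
        simp only
        rw [← e5, hφ, pow_right_comm, hβ']
      linear_combination -this

end Pool.Agent.MP_dcfa1b_co

end
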